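import Pool.Agent.OddAuto34.Cong

/-!
# A minimal normal abelian subloop is embedded affinely
-/

namespace Pool.Agent.OddAuto34

universe u

variable {Q : Type u} [MulOneClass Q] [IsLoop Q]

variable (Q) in
/-- An additive commutative group `A` identified with a minimal normal subloop of `Q`. -/
structure Emb (A : Type u) [AddCommGroup A] where
  i : A → Q
  i_zero : i 0 = 1
  i_add : ∀ a b, i (a + b) = i a * i b
  inj : Function.Injective i
  nsub : NSub (Set.range i)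
  irr : ∀ U : Set Q, NSub U → U ⊆ Set.range i → U = {1} ∨ U = Set.range i

namespace Emb

variable {A : Type u} [AddCommGroup A] (E : Emb Q A)

/-- restriction of an inner mapping to `A` as a function -/
noncomputable def rfun (h : Inn Q) (a : A) : A :=
  Classical.choose (E.nsub.inn_mem h.1 h.2 (E.i a) ⟨a, rfl⟩)

lemma i_rfun (h : Inn Q) (a : A) : E.i (E.rfun h a) = h.1 (E.i a) :=
  Classical.choose_spec (E.nsub.inn_mem h.1 h.2 (E.i a) ⟨a, rfl⟩)

/-- restriction of inner mappings to `A` -/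
noncomputable def rho (hQ : IsAutomorphic Q) : Inn Q →* AddMonoid.End A where
  toFun h :=
    { toFun := E.rfun h
      map_zero' := by
        apply E.inj
        rw [i_rfun, E.i_zero, h.2.2]
      map_add' := by
        intro a b
        apply E.inj
        rw [i_rfun, E.i_add, Inn_mul hQ h.2, E.i_add, i_rfun, i_rfun] }
  map_one' := by
    ext a
    apply E.inj
    change E.i (E.rfun 1 a) = E.i a
    rw [i_rfun]; rfl
  map_mul' := by
    intro g h
    ext a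
    apply E.inj
    change E.i (E.rfun (g * h) a) = E.i (E.rfun g (E.rfun h a))
    rw [i_rfun, i_rfun, i_rfun]; rfl

lemma i_rho (hQ : IsAutomorphic Q) (h : Inn Q) (a : A) :
    E.i (E.rho hQ h a) = h.1 (E.i a) := E.i_rfun h a

variable [Finite Q]

/-- the congruence of `A` -/
noncomputable def c : Con Q := E.nsub.con

lemma c_iff {x y : Q} : E.c x y ↔ ∃ a, y = E.i a * x := by
  unfold c
  rw [NSub.con_iff]
  constructor
  · rintro ⟨u, ⟨a, rfl⟩, h⟩; exact ⟨a, h⟩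
  · rintro ⟨a, h⟩; exact ⟨_, ⟨a, rfl⟩, h⟩

/-- elements of `Mlt Q` preserving every class -/
def N : Subgroup (Equiv.Perm Q) where
  carrier := {g | g ∈ Mlt Q ∧ ∀ x, E.c x (g x)}
  one_mem' := ⟨one_mem _, fun x => E.c.refl x⟩
  mul_mem' := by
    rintro a b ⟨ha, ha1⟩ ⟨hb, hb1⟩
    exact ⟨mul_mem ha hb, fun x => E.c.trans (hb1 x) (ha1 (b x))⟩
  inv_mem' := by
    rintro a ⟨ha, ha1⟩
    refine ⟨inv_mem ha, fun x => ?_⟩
    have h := ha1 (a⁻¹ x)
    have e : a (a⁻¹ x) = x := by simp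
    rw [e] at h
    exact E.c.symm h

lemma mem_N {g : Equiv.Perm Q} : g ∈ E.N ↔ g ∈ Mlt Q ∧ ∀ x, E.c x (g x) := Iff.rfl

lemma N_normal {g n : Equiv.Perm Q} (hg : g ∈ Mlt Q) (hn : n ∈ E.N) : g * n * g⁻¹ ∈ E.N := by
  refine ⟨mul_mem (mul_mem hg hn.1) (inv_mem hg), fun x => ?_⟩
  have h := con_Mlt E.c hg _ _ (hn.2 (g⁻¹ x))
  have e : g (g⁻¹ x) = x := by simp
  rw [e] at h
  exact h

/-- elements of `N` acting on `A` as translations -/
def O : Subgroup (Equiv.Perm Q) where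
  carrier := {g | g ∈ E.N ∧ ∃ a, ∀ b, g (E.i b) = E.i (a + b)}
  one_mem' := ⟨one_mem _, 0, fun b => by simp⟩
  mul_mem' := by
    rintro g k ⟨hg, a, ha⟩ ⟨hk, a', ha'⟩
    refine ⟨mul_mem hg hk, a + a', fun b => ?_⟩
    rw [Equiv.Perm.mul_apply, ha', ha, add_assoc]
  inv_mem' := by
    rintro g ⟨hg, a, ha⟩
    refine ⟨inv_mem hg, -a, fun b => ?_⟩
    rw [Equiv.Perm.inv_eq_iff_eq, ha]; simp

lemma mem_O {g : Equiv.Perm Q} : g ∈ E.O ↔ g ∈ E.N ∧ ∃ a, ∀ b, g (E.i b) = E.i (a + b) :=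
  Iff.rfl

lemma O_le_N : E.O ≤ E.N := fun _ h => h.1

lemma L_mem_N (a : A) : L (E.i a) ∈ E.N :=
  ⟨L_mem _, fun _ => E.c_iff.2 ⟨a, rfl⟩⟩

lemma L_mem_O (a : A) : L (E.i a) ∈ E.O :=
  ⟨E.L_mem_N a, a, fun b => by rw [L_apply, E.i_add]⟩

lemma R_mem_N (a : A) : R (E.i a) ∈ E.N := by
  refine ⟨R_mem _, fun x => E.c_iff.2 ?_⟩
  obtain ⟨w, ⟨b, rfl⟩, hw⟩ := E.nsub.commL x (u := E.i a) ⟨a, rfl⟩
  exact ⟨b, hw⟩

lemma R_mem_O (a : A) : R (E.i a) ∈ E.O :=
  ⟨E.R_mem_N a, a, fun b => by rw [R_apply, ← E.i_add, add_comm]⟩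

lemma N_one {n : Equiv.Perm Q} (hn : n ∈ E.N) : ∃ a, n 1 = E.i a := by
  obtain ⟨a, ha⟩ := E.c_iff.1 (hn.2 1)
  exact ⟨a, by rw [ha, mul_one]⟩

/-- elements of `N` act on `A` as affine maps -/
lemma N_affine (hQ : IsAutomorphic Q) {n : Equiv.Perm Q} (hn : n ∈ E.N) :
    ∃ (a : A) (h : AddMonoid.End A), ∀ b, n (E.i b) = E.i (a + h b) := by
  obtain ⟨a, ha⟩ := E.N_one hn
  have hh : (L (E.i a))⁻¹ * n ∈ Inn Q := by
    refine ⟨mul_mem (inv_mem (L_mem _)) hn.1, ?_⟩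
    rw [Equiv.Perm.mul_apply, ha]; simp
  refine ⟨a, E.rho hQ ⟨_, hh⟩, fun b => ?_⟩
  have h2 := E.i_rho hQ ⟨_, hh⟩ b
  rw [E.i_add, h2]
  simp

lemma O_normal_N (hQ : IsAutomorphic Q) {n g : Equiv.Perm Q} (hn : n ∈ E.N) (hg : g ∈ E.O) :
    n * g * n⁻¹ ∈ E.O := by
  refine ⟨mul_mem (mul_mem hn hg.1) (inv_mem hn), ?_⟩
  obtain ⟨-, a, ha⟩ := hg
  obtain ⟨a0, h, hh⟩ := E.N_affine hQ hn
  obtain ⟨a1, h1, hh1⟩ := E.N_affine hQ (inv_mem hn)
  refine ⟨h a, fun b => ?_⟩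
  rw [Equiv.Perm.mul_apply, Equiv.Perm.mul_apply, hh1, ha, hh, map_add]
  have h2 : n (n⁻¹ (E.i b)) = E.i b := by simp
  rw [hh1, hh] at h2
  have h3 := E.inj h2
  calc E.i (a0 + (h a + h (a1 + h1 b))) = E.i (h a + (a0 + h (a1 + h1 b))) := by
        congr 1; abel
    _ = E.i (h a + b) := by rw [h3]

section pgroup

variable {p : ℕ} [Fact p.Prime] [Finite A] (hp : ∀ a : A, p • a = 0)

include hp in
omit [MulOneClass Q] [IsLoop Q] [Finite Q] in
lemma card_A : ∃ n, Nat.card A = p ^ n := by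
  have h : IsPGroup p (Multiplicative A) := by
    intro a
    refine ⟨1, ?_⟩
    rw [pow_one]
    exact hp (Multiplicative.toAdd a)
  obtain ⟨n, hn⟩ := IsPGroup.iff_card.1 h
  exact ⟨n, hn⟩

include hp in
lemma HV_prime (hQ : IsAutomorphic Q) {h : Equiv.Perm Q} (hN : h ∈ E.N)
    (h1 : ∀ b, h (E.i b) = E.i b) {q : ℕ} (hq : q.Prime) (hqp : q ≠ p) (hpow : h ^ q = 1) :
    h = 1 := by
  classical
  have hI : h ∈ Inn Q := ⟨hN.1, by rw [← E.i_zero]; exact h1 0⟩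
  have := Fact.mk hq
  ext x
  let α := {y : Q // E.c x y}
  have : Fintype α := Fintype.ofFinite α
  let e : A ≃ α := Equiv.ofBijective (fun a => ⟨E.i a * x, E.c_iff.2 ⟨a, rfl⟩⟩) (by
    constructor
    · intro a b hab
      exact E.inj (rcancel (congrArg Subtype.val hab))
    · rintro ⟨y, hy⟩
      obtain ⟨a, rfl⟩ := E.c_iff.1 hy
      exact ⟨a, rfl⟩)
  have hsub : ∀ y, E.c x (h y) ↔ E.c x y := fun y =>
    ⟨fun hy => E.c.trans hy (E.c.symm (hN.2 y)), fun hy => E.c.trans hy (hN.2 y)⟩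
  let σ : Equiv.Perm α := h.subtypePerm hsub
  have hσ : σ ^ q ^ 1 = 1 := by
    have hk : ∀ (k : ℕ) (y : α), ((σ ^ k) y).1 = (h ^ k) y.1 := by
      intro k
      induction k with
      | zero => intro y; rfl
      | succ k ih => intro y; rw [pow_succ, Equiv.Perm.mul_apply, ih, pow_succ]; rfl
    rw [pow_one]
    ext y
    rw [hk, hpow]; rfl
  obtain ⟨n, hn⟩ := card_A hp
  have hcard : ¬ q ∣ Fintype.card α := by
    intro hd
    rw [← Nat.card_eq_fintype_card, ← Nat.card_congr e, hn] at hd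
    exact hqp ((Nat.prime_dvd_prime_iff_eq hq Fact.out).1 (hq.dvd_of_dvd_pow hd))
  obtain ⟨⟨y, hy⟩, hfix⟩ := Equiv.Perm.exists_fixed_point_of_prime hcard hσ
  have hfix' : h y = y := congrArg Subtype.val hfix
  obtain ⟨a, ha⟩ := E.c_iff.1 (E.c.symm hy)
  have h2 : h x = x := by
    rw [ha, Inn_mul hQ hI, h1, hfix']
  exact h2

include hp in
lemma HV_pow (hQ : IsAutomorphic Q) {h : Equiv.Perm Q} (hN : h ∈ E.N)
    (h1 : ∀ b, h (E.i b) = E.i b) : ∃ k, h ^ (p ^ k) = 1 := by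
  have hpos : 0 < orderOf h := orderOf_pos h
  have hpk : ∀ (k : ℕ) (b : A), (h ^ k) (E.i b) = E.i b := by
    intro k
    induction k with
    | zero => intro b; rfl
    | succ k ih => intro b; rw [pow_succ, Equiv.Perm.mul_apply, h1, ih]
  have key : ∀ {q : ℕ}, q.Prime → q ∣ orderOf h → q = p := by
    intro q hq hd
    by_contra hqp
    have h2 : (h ^ (orderOf h / q)) ^ q = 1 := by
      rw [← pow_mul, Nat.div_mul_cancel hd, pow_orderOf_eq_one]
    have h3 := E.HV_prime hp hQ (pow_mem hN _) (hpk _) hq hqp h2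
    have h4 := orderOf_dvd_of_pow_eq_one h3
    have h5 : orderOf h / q < orderOf h := Nat.div_lt_self hpos hq.one_lt
    have h6 : 0 < orderOf h / q := Nat.div_pos (Nat.le_of_dvd hpos hd) hq.pos
    exact absurd (Nat.le_of_dvd h6 h4) (by omega)
  have h7 := Nat.eq_prime_pow_of_unique_prime_dvd hpos.ne' key
  exact ⟨_, by rw [← h7]; exact pow_orderOf_eq_one h⟩

include hp in
lemma O_pow (hQ : IsAutomorphic Q) {g : Equiv.Perm Q} (hg : g ∈ E.O) :
    ∃ k, g ^ (p ^ k) = 1 := by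
  obtain ⟨hN, a, ha⟩ := hg
  have h1 : ∀ (n : ℕ) (b : A), (g ^ n) (E.i b) = E.i (n • a + b) := by
    intro n
    induction n with
    | zero => intro b; simp
    | succ n ih => intro b; rw [pow_succ, Equiv.Perm.mul_apply, ha, ih, succ_nsmul, add_assoc]
  obtain ⟨k, hk⟩ := E.HV_pow hp hQ (pow_mem hN p) (fun b => by rw [h1, hp, zero_add])
  exact ⟨k + 1, by rw [pow_succ', pow_mul]; exact hk⟩

/-- the normal closure of `O` in `Mlt Q` -/
def Ostar : Subgroup (Equiv.Perm Q) :=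
  Subgroup.closure {x | ∃ g ∈ Mlt Q, ∃ o ∈ E.O, x = g * o * g⁻¹}

omit [Finite A] in
lemma O_le_Ostar : E.O ≤ E.Ostar := fun o ho =>
  Subgroup.subset_closure ⟨1, one_mem _, o, ho, by simp⟩

omit [Finite A] in
lemma Ostar_normal {g x : Equiv.Perm Q} (hg : g ∈ Mlt Q) (hx : x ∈ E.Ostar) :
    g * x * g⁻¹ ∈ E.Ostar := by
  induction hx using Subgroup.closure_induction with
  | mem x hx =>
    obtain ⟨k, hk, o, ho, rfl⟩ := hx
    exact Subgroup.subset_closure ⟨g * k, mul_mem hg hk, o, ho, by group⟩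
  | one => simp
  | mul x y _ _ hx hy =>
    have : g * (x * y) * g⁻¹ = (g * x * g⁻¹) * (g * y * g⁻¹) := by group
    rw [this]; exact mul_mem hx hy
  | inv x _ hx =>
    have : g * x⁻¹ * g⁻¹ = (g * x * g⁻¹)⁻¹ := by group
    rw [this]; exact inv_mem hx

omit [Finite A] in
lemma Ostar_le_N : E.Ostar ≤ E.N := by
  unfold Ostar
  rw [Subgroup.closure_le]
  rintro x ⟨g, hg, o, ho, rfl⟩
  exact E.N_normal hg ho.1

include hp in
lemma Ostar_pow (hQ : IsAutomorphic Q) {x : Equiv.Perm Q} (hx : x ∈ E.Ostar) :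
    ∃ k, x ^ (p ^ k) = 1 := by
  classical
  obtain ⟨S⟩ : Nonempty (Sylow p E.N) := inferInstance
  have key : ∀ g ∈ Mlt Q, ∀ o ∈ E.O, ∃ h : g * o * g⁻¹ ∈ E.N, (⟨_, h⟩ : E.N) ∈ S := by
    intro g hg o ho
    let P : Subgroup E.N :=
      { carrier := {n | g⁻¹ * n.1 * g ∈ E.O}
        one_mem' := by
          change g⁻¹ * 1 * g ∈ E.O
          simp [one_mem]
        mul_mem' := by
          intro a b ha hb
          change g⁻¹ * (a.1 * b.1) * g ∈ E.O
          have : g⁻¹ * (a.1 * b.1) * g = (g⁻¹ * a.1 * g) * (g⁻¹ * b.1 * g) := by group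
          rw [this]; exact mul_mem ha hb
        inv_mem' := by
          intro a ha
          change g⁻¹ * (a.1)⁻¹ * g ∈ E.O
          have : g⁻¹ * (a.1)⁻¹ * g = (g⁻¹ * a.1 * g)⁻¹ := by group
          rw [this]; exact inv_mem ha }
    have hPn : P.Normal := by
      constructor
      intro n hn m
      change g⁻¹ * (m.1 * n.1 * (m.1)⁻¹) * g ∈ E.O
      have hn' : g⁻¹ * n.1 * g ∈ E.O := hn
      have hm : g⁻¹ * m.1 * g ∈ E.N := by
        have := E.N_normal (inv_mem hg) m.2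
        simpa using this
      have h3 := E.O_normal_N hQ hm hn'
      have : g⁻¹ * (m.1 * n.1 * (m.1)⁻¹) * g
          = (g⁻¹ * m.1 * g) * (g⁻¹ * n.1 * g) * (g⁻¹ * m.1 * g)⁻¹ := by group
      rw [this]; exact h3
    have hPp : IsPGroup p P := by
      rintro ⟨n, hn⟩
      have hn' : g⁻¹ * n.1 * g ∈ E.O := hn
      obtain ⟨k, hk⟩ := E.O_pow hp hQ hn'
      refine ⟨k, ?_⟩
      have e1 : (g⁻¹ * n.1 * g) ^ (p ^ k) = g⁻¹ * (n.1) ^ (p ^ k) * g := by
        have := conj_pow (a := g⁻¹) (b := n.1) (i := p ^ k)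
        simpa using this
      rw [e1] at hk
      have e2 : (n.1) ^ (p ^ k) = 1 := by
        have : (n.1) ^ (p ^ k) = g * (g⁻¹ * (n.1) ^ (p ^ k) * g) * g⁻¹ := by group
        rw [this, hk]; group
      ext1
      ext1
      exact e2
    have hle : P ≤ S := by
      have h4 : IsPGroup p ((S : Subgroup E.N) ⊔ P : Subgroup E.N) :=
        IsPGroup.to_sup_of_normal_right S.isPGroup' hPp
      have h5 := S.is_maximal' h4 le_sup_left
      rw [← h5]; exact le_sup_right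
    have hN := E.N_normal hg ho.1
    refine ⟨hN, hle ?_⟩
    change g⁻¹ * (g * o * g⁻¹) * g ∈ E.O
    have : g⁻¹ * (g * o * g⁻¹) * g = o := by group
    rw [this]; exact ho
  have hle : E.Ostar ≤ (S : Subgroup E.N).map E.N.subtype := by
    unfold Ostar
    rw [Subgroup.closure_le]
    rintro x ⟨g, hg, o, ho, rfl⟩
    obtain ⟨h, hS⟩ := key g hg o ho
    exact ⟨_, hS, rfl⟩
  obtain ⟨s, hs, rfl⟩ := hle hx
  obtain ⟨k, hk⟩ := S.isPGroup' ⟨s, hs⟩
  exact ⟨k, congrArg (fun z : S => (z.1.1 : Equiv.Perm Q)) hk⟩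

/-- the stabiliser of `1` in `Ostar` -/
def S1 : Subgroup (Equiv.Perm Q) where
  carrier := {x | x ∈ E.Ostar ∧ x 1 = 1}
  one_mem' := ⟨one_mem _, rfl⟩
  mul_mem' := by
    rintro a b ⟨ha, ha1⟩ ⟨hb, hb1⟩
    exact ⟨mul_mem ha hb, by simp [ha1, hb1]⟩
  inv_mem' := by
    rintro a ⟨ha, ha1⟩
    refine ⟨inv_mem ha, ?_⟩
    rw [Equiv.Perm.inv_eq_iff_eq]
    exact ha1.symm

omit [Finite A] in
lemma S1_le_Inn : E.S1 ≤ Inn Q := fun _ hx => ⟨(E.Ostar_le_N hx.1).1, hx.2⟩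

include hp in
lemma S1_trivial (hQ : IsAutomorphic Q) [Nontrivial A] {s : Equiv.Perm Q} (hs : s ∈ E.S1)
    (a : A) : s (E.i a) = E.i a := by
  classical
  -- the fixed points
  let U : Set Q := {x | x ∈ Set.range E.i ∧ ∀ s ∈ E.S1, s x = x}
  have hU : NSub U := by
    refine ⟨⟨⟨0, E.i_zero⟩, fun s hs => hs.2⟩, ?_, ?_⟩
    · rintro u ⟨hu, hu1⟩ w ⟨hw, hw1⟩
      refine ⟨E.nsub.mul_mem _ hu _ hw, fun s hs => ?_⟩
      rw [Inn_mul hQ (E.S1_le_Inn hs), hu1 s hs, hw1 s hs]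
    · rintro h hh u ⟨hu, hu1⟩
      refine ⟨E.nsub.inn_mem h hh u hu, fun s hs => ?_⟩
      have h1 : h⁻¹ * s * h ∈ E.S1 := by
        refine ⟨?_, ?_⟩
        · have := E.Ostar_normal (inv_mem hh.1) hs.1
          simpa using this
        · have e := (inv_mem hh : h⁻¹ ∈ Inn Q).2
          rw [Equiv.Perm.mul_apply, Equiv.Perm.mul_apply, hh.2, hs.2, e]
      have h2 := hu1 _ h1
      have h3 : h ((h⁻¹ * s * h) u) = h u := by rw [h2]
      simpa using h3
  rcases E.irr U hU (fun x hx => hx.1) with h1 | h1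
  · exfalso
    -- counting fixed points
    let ψ : E.S1 →* AddMonoid.End A :=
      (E.rho hQ).comp (Subgroup.inclusion E.S1_le_Inn)
    let act : MulAction E.S1 A := MulAction.compHom A ψ
    have hSp : IsPGroup p E.S1 := by
      rintro ⟨x, hx⟩
      obtain ⟨k, hk⟩ := E.Ostar_pow hp hQ hx.1
      exact ⟨k, by ext1; exact hk⟩
    have hmod := hSp.card_modEq_card_fixedPoints A
    obtain ⟨n, hn⟩ := card_A hp
    have hn0 : n ≠ 0 := by
      rintro rfl
      rw [pow_zero] at hn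
      have := Finite.one_lt_card (α := A)
      omega
    have hfix : Nat.card (MulAction.fixedPoints E.S1 A) = 1 := by
      rw [Nat.card_eq_one_iff_unique]
      constructor
      · constructor
        rintro ⟨a, ha⟩ ⟨b, hb⟩
        have hz : ∀ a : A, a ∈ MulAction.fixedPoints E.S1 A → a = 0 := by
          intro a ha
          have : E.i a ∈ U := by
            refine ⟨⟨a, rfl⟩, fun s hs => ?_⟩
            have h2 : ψ ⟨s, hs⟩ a = a := ha ⟨s, hs⟩
            have h3 := E.i_rho hQ (Subgroup.inclusion E.S1_le_Inn ⟨s, hs⟩) a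
            have h4 : E.i (ψ ⟨s, hs⟩ a) = s (E.i a) := h3
            rw [← h4, h2]
          rw [h1] at this
          apply E.inj
          rw [E.i_zero]; exact this
        ext1
        exact (hz a ha).trans (hz b hb).symm
      · exact ⟨⟨0, fun s => map_zero (ψ s)⟩⟩
    rw [hfix, hn] at hmod
    have h5 : p ∣ p ^ n := dvd_pow_self p hn0
    have h6 : (p ^ n) % p = 0 := Nat.mod_eq_zero_of_dvd h5
    have h7 : 1 < p := (Fact.out : p.Prime).one_lt
    rw [Nat.ModEq, h6, Nat.mod_eq_of_lt h7] at hmod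
    exact absurd hmod (by norm_num)
  · have : E.i a ∈ U := by rw [h1]; exact ⟨a, rfl⟩
    exact this.2 s hs

include hp in
/-- `O` is normal in `Mlt Q` -/
lemma O_normal (hQ : IsAutomorphic Q) [Nontrivial A] {g o : Equiv.Perm Q} (hg : g ∈ Mlt Q)
    (ho : o ∈ E.O) : g * o * g⁻¹ ∈ E.O := by
  have hN := E.N_normal hg ho.1
  set x := g * o * g⁻¹ with hx
  obtain ⟨a, ha⟩ := E.N_one hN
  have hxs : x ∈ E.Ostar := Subgroup.subset_closure ⟨g, hg, o, ho, rfl⟩
  have hs : (L (E.i a))⁻¹ * x ∈ E.S1 := by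
    refine ⟨mul_mem (inv_mem (E.O_le_Ostar (E.L_mem_O a))) hxs, ?_⟩
    rw [Equiv.Perm.mul_apply, ha]; simp
  refine ⟨hN, a, fun b => ?_⟩
  have h1 := E.S1_trivial hp hQ hs b
  rw [Equiv.Perm.mul_apply, Equiv.Perm.inv_eq_iff_eq] at h1
  rw [h1, L_apply, E.i_add]

end pgroup

end Emb

end Pool.Agent.OddAuto34
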