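import Mathlib

/-!
# Automorphic loops: basic facts

Loops are types with a `MulOneClass` structure all of whose translations are bijective.
-/

namespace Pool.Agent.OddAuto34

universe u

/-- `Q` is a loop: a multiplication with two-sided identity `1` for which every left
translation and every right translation is a bijection. -/
class IsLoop (Q : Type u) [MulOneClass Q] : Prop where
  bijL : ∀ a : Q, Function.Bijective (fun x : Q => a * x)
  bijR : ∀ a : Q, Function.Bijective (fun x : Q => x * a)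

variable {Q : Type u} [MulOneClass Q]

/-- Left translation `x ↦ a * x`. -/
noncomputable def L [IsLoop Q] (a : Q) : Equiv.Perm Q :=
  Equiv.ofBijective (fun x : Q => a * x) (IsLoop.bijL a)

/-- Right translation `x ↦ x * a`. -/
noncomputable def R [IsLoop Q] (a : Q) : Equiv.Perm Q :=
  Equiv.ofBijective (fun x : Q => x * a) (IsLoop.bijR a)

@[simp] lemma L_apply [IsLoop Q] (a x : Q) : L a x = a * x := rfl
@[simp] lemma R_apply [IsLoop Q] (a x : Q) : R a x = x * a := rfl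

variable (Q) in
/-- The multiplication group of `Q`, generated by all left and right translations. -/
def Mlt [IsLoop Q] : Subgroup (Equiv.Perm Q) :=
  Subgroup.closure (Set.range (L : Q → Equiv.Perm Q) ∪ Set.range (R : Q → Equiv.Perm Q))

variable (Q) in
/-- A loop is automorphic if every inner mapping (element of the multiplication group fixing
`1`) is an automorphism. -/
def IsAutomorphic [IsLoop Q] : Prop :=
  ∀ g ∈ Mlt Q, g 1 = 1 → ∀ x y : Q, g (x * y) = g x * g y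

section loop

variable [IsLoop Q]

variable (Q) in
/-- The inner mapping group, the stabiliser of `1` in the multiplication group. -/
def Inn : Subgroup (Equiv.Perm Q) where
  carrier := {g | g ∈ Mlt Q ∧ g 1 = 1}
  mul_mem' := by
    rintro a b ⟨ha, ha1⟩ ⟨hb, hb1⟩
    exact ⟨mul_mem ha hb, by simp [ha1, hb1]⟩
  one_mem' := ⟨one_mem _, rfl⟩
  inv_mem' := by
    rintro a ⟨ha, ha1⟩
    refine ⟨inv_mem ha, ?_⟩
    rw [Equiv.Perm.inv_eq_iff_eq]
    exact ha1.symm

lemma mem_Inn {g : Equiv.Perm Q} : g ∈ Inn Q ↔ g ∈ Mlt Q ∧ g 1 = 1 := Iff.rfl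

lemma L_mem (a : Q) : L a ∈ Mlt Q := Subgroup.subset_closure (Or.inl ⟨a, rfl⟩)
lemma R_mem (a : Q) : R a ∈ Mlt Q := Subgroup.subset_closure (Or.inr ⟨a, rfl⟩)

lemma lcancel {a x y : Q} (h : a * x = a * y) : x = y := (IsLoop.bijL a).1 h
lemma rcancel {a x y : Q} (h : x * a = y * a) : x = y := (IsLoop.bijR a).1 h

@[simp] lemma L_inv_mul (a x : Q) : (L a)⁻¹ (a * x) = x := by
  rw [Equiv.Perm.inv_eq_iff_eq]; rfl
@[simp] lemma mul_L_inv (a x : Q) : a * (L a)⁻¹ x = x := by
  have := (L a).apply_symm_apply x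
  exact this
@[simp] lemma R_inv_mul (a x : Q) : (R a)⁻¹ (x * a) = x := by
  rw [Equiv.Perm.inv_eq_iff_eq]; rfl
@[simp] lemma mul_R_inv (a x : Q) : (R a)⁻¹ x * a = x := by
  have := (R a).apply_symm_apply x
  exact this

@[simp] lemma L_symm_mul (a x : Q) : (L a).symm (a * x) = x := L_inv_mul a x
@[simp] lemma mul_L_symm (a x : Q) : a * (L a).symm x = x := mul_L_inv a x
@[simp] lemma R_symm_mul (a x : Q) : (R a).symm (x * a) = x := R_inv_mul a x
@[simp] lemma mul_R_symm (a x : Q) : (R a).symm x * a = x := mul_R_inv a x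

@[simp] lemma L_inv_self (a : Q) : (L a)⁻¹ a = 1 := by
  rw [Equiv.Perm.inv_eq_iff_eq]; simp
@[simp] lemma R_inv_self (a : Q) : (R a)⁻¹ a = 1 := by
  rw [Equiv.Perm.inv_eq_iff_eq]; simp
@[simp] lemma L_symm_self (a : Q) : (L a).symm a = 1 := L_inv_self a
@[simp] lemma R_symm_self (a : Q) : (R a).symm a = 1 := R_inv_self a

/-- The inner mapping `T_x = R_x⁻¹ L_x`. -/
noncomputable def T (x : Q) : Equiv.Perm Q := (R x)⁻¹ * L x
/-- The inner mapping `L_{x,y} = L_{xy}⁻¹ L_x L_y`. -/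
noncomputable def LL (x y : Q) : Equiv.Perm Q := (L (x * y))⁻¹ * L x * L y
/-- The inner mapping `R_{x,y} = R_{xy}⁻¹ R_y R_x`. -/
noncomputable def RR (x y : Q) : Equiv.Perm Q := (R (x * y))⁻¹ * R y * R x
/-- The inner mapping `M_{x,y} = L_x⁻¹ R_y⁻¹ L_x R_y`. -/
noncomputable def MM (x y : Q) : Equiv.Perm Q := (L x)⁻¹ * (R y)⁻¹ * L x * R y

lemma T_mem (x : Q) : T x ∈ Inn Q :=
  ⟨mul_mem (inv_mem (R_mem x)) (L_mem x), by simp [T]⟩
lemma LL_mem (x y : Q) : LL x y ∈ Inn Q :=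
  ⟨mul_mem (mul_mem (inv_mem (L_mem _)) (L_mem x)) (L_mem y), by simp [LL]⟩
lemma RR_mem (x y : Q) : RR x y ∈ Inn Q :=
  ⟨mul_mem (mul_mem (inv_mem (R_mem _)) (R_mem y)) (R_mem x), by simp [RR]⟩
lemma MM_mem (x y : Q) : MM x y ∈ Inn Q :=
  ⟨mul_mem (mul_mem (mul_mem (inv_mem (L_mem x)) (inv_mem (R_mem y))) (L_mem x)) (R_mem y), by simp [MM]⟩

lemma T_spec (x z : Q) : T x z * x = x * z := by simp [T]
lemma LL_spec (x y z : Q) : (x * y) * LL x y z = x * (y * z) := by simp [LL]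
lemma RR_spec (x y z : Q) : RR x y z * (x * y) = (z * x) * y := by simp [RR]
lemma MM_spec (x y z : Q) : (x * MM x y z) * y = x * (z * y) := by simp [MM]

variable (hQ : IsAutomorphic Q)
include hQ

lemma Inn_mul {h : Equiv.Perm Q} (hh : h ∈ Inn Q) (x y : Q) : h (x * y) = h x * h y :=
  hQ h hh.1 hh.2 x y

lemma conj_L {h : Equiv.Perm Q} (hh : h ∈ Inn Q) (x : Q) : h * L x * h⁻¹ = L (h x) := by
  ext z
  simp [Inn_mul hQ hh]

lemma conj_R {h : Equiv.Perm Q} (hh : h ∈ Inn Q) (x : Q) : h * R x * h⁻¹ = R (h x) := by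
  ext z
  simp [Inn_mul hQ hh]

lemma conj_T {h : Equiv.Perm Q} (hh : h ∈ Inn Q) (x : Q) : h * T x * h⁻¹ = T (h x) := by
  rw [T, T, ← conj_L hQ hh, ← conj_R hQ hh]; group

lemma conj_LL {h : Equiv.Perm Q} (hh : h ∈ Inn Q) (x y : Q) :
    h * LL x y * h⁻¹ = LL (h x) (h y) := by
  rw [LL, LL, ← Inn_mul hQ hh, ← conj_L hQ hh, ← conj_L hQ hh, ← conj_L hQ hh]; group

lemma conj_RR {h : Equiv.Perm Q} (hh : h ∈ Inn Q) (x y : Q) :
    h * RR x y * h⁻¹ = RR (h x) (h y) := by
  rw [RR, RR, ← Inn_mul hQ hh, ← conj_R hQ hh, ← conj_R hQ hh, ← conj_R hQ hh]; group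

lemma conj_MM {h : Equiv.Perm Q} (hh : h ∈ Inn Q) (x y : Q) :
    h * MM x y * h⁻¹ = MM (h x) (h y) := by
  rw [MM, MM, ← conj_L hQ hh, ← conj_R hQ hh]; group

omit hQ in
lemma T_self (x : Q) : T x x = x := by
  apply rcancel (a := x); rw [T_spec]

/-- flexibility -/
lemma flex (x z : Q) : x * (z * x) = (x * z) * x := by
  have h := conj_R hQ (T_mem x) x
  rw [T_self] at h
  have h2 : L x * R x = R x * L x := by
    have : (R x)⁻¹ * (L x * R x) = (R x)⁻¹ * (R x * L x) := by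
      calc (R x)⁻¹ * (L x * R x) = (T x * R x * (T x)⁻¹) * T x := by rw [T]; group
        _ = R x * T x := by rw [h]
        _ = (R x)⁻¹ * (R x * L x) := by rw [T]; group
    exact mul_left_cancel this
  have := congrArg (fun f : Equiv.Perm Q => f z) h2
  simpa using this

omit hQ in
variable (Q) in
/-- the inverse of `x` (defined as the solution of `x y = 1`) -/
noncomputable def iv (x : Q) : Q := (L x)⁻¹ 1

omit hQ in
@[simp] lemma mul_iv (x : Q) : x * iv Q x = 1 := by simp [iv]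

omit hQ in
lemma iv_eq {x y : Q} (h : x * y = 1) : y = iv Q x := by
  apply lcancel (a := x); rw [h, mul_iv]

lemma Inn_iv {h : Equiv.Perm Q} (hh : h ∈ Inn Q) (x : Q) : h (iv Q x) = iv Q (h x) := by
  apply iv_eq
  rw [← Inn_mul hQ hh, mul_iv, hh.2]

lemma iv_mul (x : Q) : iv Q x * x = 1 := by
  have h1 : T x (iv Q x) = iv Q x := by rw [Inn_iv hQ (T_mem x), T_self]
  have h2 := T_spec x (iv Q x)
  rw [h1, mul_iv] at h2
  exact h2

lemma iv_iv (x : Q) : iv Q (iv Q x) = x := (iv_eq (iv_mul hQ x)).symm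

/-- the antiautomorphic inverse property -/
lemma aaip (a b : Q) : iv Q (a * b) = iv Q b * iv Q a := by
  set x := a * b with hx
  set y := (L x)⁻¹ a with hy
  have hxy : x * y = a := by simp [hy]
  have hK := LL_mem x y
  set K := LL x y with hKdef
  have e1 : K x = x := by
    apply lcancel (a := x * y)
    rw [hKdef, LL_spec, flex hQ]
  have e2 : K (iv Q y) = b := by
    apply lcancel (a := x * y)
    rw [hKdef, LL_spec, mul_iv, mul_one, hxy]
  have e3 : K ((L y)⁻¹ (iv Q x)) = iv Q a := by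
    apply lcancel (a := x * y)
    rw [hKdef, LL_spec, mul_L_inv, mul_iv, hxy, mul_iv]
  have e4 : K y = iv Q b := by
    rw [← e2, Inn_iv hQ hK, iv_iv hQ]
  have e5 : K (iv Q x) = K y * K ((L y)⁻¹ (iv Q x)) := by
    rw [← Inn_mul hQ hK, mul_L_inv]
  rw [e4, e3, Inn_iv hQ hK, e1] at e5
  exact e5

lemma T_iv (x : Q) : T (iv Q x) = (T x)⁻¹ := by
  rw [eq_inv_iff_mul_eq_one]
  ext z
  have h1 : iv Q (T x (iv Q z) * x) = iv Q (x * iv Q z) := by rw [T_spec]
  rw [aaip hQ, aaip hQ, ← Inn_iv hQ (T_mem x), iv_iv hQ] at h1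
  simp only [Equiv.Perm.coe_mul, Function.comp_apply, Equiv.Perm.coe_one, id_eq]
  apply rcancel (a := iv Q x)
  rw [T_spec, h1]

end loop

end Pool.Agent.OddAuto34
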