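import Pool.Agent.OddAuto34.Basic

/-!
# Normal subloops, congruences and quotients of automorphic loops
-/

namespace Pool.Agent.OddAuto34

universe u

variable {Q : Type u} [MulOneClass Q] [IsLoop Q]

/-- `U` is a multiplicatively closed subset containing `1` and invariant under the inner
mapping group (for finite `Q`: a normal subloop). -/
structure NSub (U : Set Q) : Prop where
  one_mem : (1 : Q) ∈ U
  mul_mem : ∀ u ∈ U, ∀ w ∈ U, u * w ∈ U
  inn_mem : ∀ h ∈ Inn Q, ∀ u ∈ U, h u ∈ U

namespace NSub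

variable {U : Set Q} (hU : NSub U)
include hU

lemma inn_iff {h : Equiv.Perm Q} (hh : h ∈ Inn Q) (u : Q) : h u ∈ U ↔ u ∈ U := by
  constructor
  · intro hu
    have := hU.inn_mem h⁻¹ (inv_mem hh) _ hu
    simpa using this
  · exact hU.inn_mem h hh u

/-- `(x y) u = x (y w)` -/
lemma assocL' (x y : Q) {u : Q} (hu : u ∈ U) : ∃ w ∈ U, x * (y * w) = (x * y) * u := by
  refine ⟨(LL x y)⁻¹ u, (hU.inn_iff (inv_mem (LL_mem x y)) u).2 hu, ?_⟩
  rw [← LL_spec]; simp

lemma assocL (x y : Q) {u : Q} (hu : u ∈ U) : ∃ w ∈ U, x * (y * u) = (x * y) * w :=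
  ⟨LL x y u, hU.inn_mem _ (LL_mem x y) u hu, (LL_spec x y u).symm⟩

lemma assocR (x y : Q) {u : Q} (hu : u ∈ U) : ∃ w ∈ U, (u * x) * y = w * (x * y) :=
  ⟨RR x y u, hU.inn_mem _ (RR_mem x y) u hu, (RR_spec x y u).symm⟩

lemma assocR' (x y : Q) {u : Q} (hu : u ∈ U) : ∃ w ∈ U, (w * x) * y = u * (x * y) := by
  refine ⟨(RR x y)⁻¹ u, (hU.inn_iff (inv_mem (RR_mem x y)) u).2 hu, ?_⟩
  rw [← RR_spec]; simp

lemma commL (x : Q) {u : Q} (hu : u ∈ U) : ∃ w ∈ U, x * u = w * x :=
  ⟨T x u, hU.inn_mem _ (T_mem x) u hu, (T_spec x u).symm⟩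

lemma commR (x : Q) {u : Q} (hu : u ∈ U) : ∃ w ∈ U, u * x = x * w := by
  refine ⟨(T x)⁻¹ u, (hU.inn_iff (inv_mem (T_mem x)) u).2 hu, ?_⟩
  rw [← T_spec x ((T x)⁻¹ u)]; simp

/-- left inverses exist in `U` for finite `Q` -/
lemma exists_inv [Finite Q] {u : Q} (hu : u ∈ U) : ∃ w ∈ U, w * u = 1 := by
  have hinj : Function.Injective (fun w : U => (⟨w.1 * u, hU.mul_mem _ w.2 _ hu⟩ : U)) := by
    intro a b hab
    have := congrArg Subtype.val hab
    exact Subtype.ext (rcancel this)
  obtain ⟨w, hw⟩ := Finite.surjective_of_injective hinj ⟨1, hU.one_mem⟩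
  exact ⟨w.1, w.2, congrArg Subtype.val hw⟩

/-- The congruence `x ~ u x` of a normal subloop. -/
def con [Finite Q] : Con Q where
  r x y := ∃ u ∈ U, y = u * x
  iseqv := by
    refine ⟨fun x => ⟨1, hU.one_mem, by simp⟩, ?_, ?_⟩
    · rintro x y ⟨u, hu, rfl⟩
      obtain ⟨u', hu', h1⟩ := hU.exists_inv hu
      obtain ⟨w, hw, h2⟩ := hU.assocR u x hu'
      exact ⟨w, hw, by rw [← h2, h1, one_mul]⟩
    · rintro x y z ⟨u, hu, rfl⟩ ⟨w, hw, rfl⟩
      obtain ⟨w', hw', h2⟩ := hU.assocR' u x hw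
      exact ⟨w' * u, hU.mul_mem _ hw' _ hu, h2.symm⟩
  mul' := by
    rintro x x' y y' ⟨u, hu, rfl⟩ ⟨w, hw, rfl⟩
    obtain ⟨u1, hu1, h1⟩ := hU.assocR x (w * y) hu
    obtain ⟨w1, hw1, h2⟩ := hU.commR y hw
    obtain ⟨w2, hw2, h3⟩ := hU.assocL x y hw1
    obtain ⟨w3, hw3, h4⟩ := hU.commL (x * y) hw2
    obtain ⟨u2, hu2, h5⟩ := hU.assocR' w3 (x * y) hu1
    refine ⟨u2 * w3, hU.mul_mem _ hu2 _ hw3, ?_⟩
    rw [h1, h5, h2, h3, h4]

lemma con_iff [Finite Q] {x y : Q} : hU.con x y ↔ ∃ u ∈ U, y = u * x := Iff.rfl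

end NSub

section quotient

variable [Finite Q] (c : Con Q)

instance : Finite c.Quotient := by
  unfold Con.Quotient
  infer_instance

instance quotientIsLoop : IsLoop c.Quotient where
  bijL := by
    intro a
    rw [← Finite.injective_iff_bijective, Finite.injective_iff_surjective]
    induction a using Con.induction_on with
    | H a =>
      intro b
      induction b using Con.induction_on with
      | H b => exact ⟨((L a)⁻¹ b : Q), by
                  change (a : c.Quotient) * ((((L a)⁻¹ b : Q) : c.Quotient)) = b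
                  rw [← Con.coe_mul]; simp⟩
  bijR := by
    intro a
    rw [← Finite.injective_iff_bijective, Finite.injective_iff_surjective]
    induction a using Con.induction_on with
    | H a =>
      intro b
      induction b using Con.induction_on with
      | H b => exact ⟨((R a)⁻¹ b : Q), by
                  change ((((R a)⁻¹ b : Q) : c.Quotient)) * (a : c.Quotient) = b
                  rw [← Con.coe_mul]; simp⟩

lemma con_Mlt {g : Equiv.Perm Q} (hg : g ∈ Mlt Q) :
    ∀ x y : Q, c x y → c (g x) (g y) := by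
  induction hg using Subgroup.closure_induction with
  | mem g hg =>
    rcases hg with ⟨a, rfl⟩ | ⟨a, rfl⟩
    · intro x y h; exact c.mul (c.refl a) h
    · intro x y h; exact c.mul h (c.refl a)
  | one => intro x y h; exact h
  | mul g k _ _ hg hk => intro x y h; exact hg _ _ (hk _ _ h)
  | inv g _ hg =>
    intro x y h
    -- use finiteness: `g` induces an injective map of the quotient
    let f : c.Quotient → c.Quotient := Quotient.map' g hg
    have hsurj : Function.Surjective f := by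
      intro b
      induction b using Con.induction_on with
      | H b => exact ⟨((g⁻¹ b : Q) : c.Quotient), by
                change (((g (g⁻¹ b)) : Q) : c.Quotient) = b
                simp⟩
    have hinj : Function.Injective f := Finite.injective_iff_surjective.2 hsurj
    have : ((g⁻¹ x : Q) : c.Quotient) = ((g⁻¹ y : Q) : c.Quotient) := by
      apply hinj
      change (((g (g⁻¹ x)) : Q) : c.Quotient) = ((g (g⁻¹ y) : Q) : c.Quotient)
      simpa using (c.eq.2 h)
    exact c.eq.1 this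

/-- every element of the multiplication group of the quotient lifts -/
lemma lift_Mlt {g : Equiv.Perm c.Quotient} (hg : g ∈ Mlt c.Quotient) :
    ∃ k ∈ Mlt Q, ∀ x : Q, g (x : c.Quotient) = ((k x : Q) : c.Quotient) := by
  induction hg using Subgroup.closure_induction with
  | mem g hg =>
    rcases hg with ⟨a, rfl⟩ | ⟨a, rfl⟩
    · induction a using Con.induction_on with
      | H a => exact ⟨L a, L_mem a, fun x => by simp⟩
    · induction a using Con.induction_on with
      | H a => exact ⟨R a, R_mem a, fun x => by simp⟩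
  | one => exact ⟨1, one_mem _, fun x => by simp⟩
  | mul g k _ _ hg hk =>
    obtain ⟨g', hg', h1⟩ := hg
    obtain ⟨k', hk', h2⟩ := hk
    exact ⟨g' * k', mul_mem hg' hk', fun x => by simp [h1, h2]⟩
  | inv g _ hg =>
    obtain ⟨g', hg', h1⟩ := hg
    refine ⟨g'⁻¹, inv_mem hg', fun x => ?_⟩
    rw [Equiv.Perm.inv_eq_iff_eq, h1]; simp

/-- every inner mapping of the quotient lifts to an inner mapping -/
lemma lift_Inn {g : Equiv.Perm c.Quotient} (hg : g ∈ Inn c.Quotient) :
    ∃ k ∈ Inn Q, ∀ x : Q, g (x : c.Quotient) = ((k x : Q) : c.Quotient) := by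
  obtain ⟨k, hk, h1⟩ := lift_Mlt c hg.1
  have h2 : ((k 1 : Q) : c.Quotient) = 1 := by rw [← h1, Con.coe_one, hg.2]
  refine ⟨(L (k 1))⁻¹ * k, ⟨mul_mem (inv_mem (L_mem _)) hk, by simp⟩, fun x => ?_⟩
  have h3 : (k 1) * (((L (k 1))⁻¹ * k) x) = k x := by simp
  have h4 := congrArg (fun z : Q => (z : c.Quotient)) h3
  simp only [Con.coe_mul] at h4
  rw [h2, one_mul] at h4
  rw [h1, h4]

lemma quotient_automorphic (hQ : IsAutomorphic Q) : IsAutomorphic c.Quotient := by
  intro g hg hg1 x y
  obtain ⟨k, hk, h1⟩ := lift_Inn c ⟨hg, hg1⟩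
  induction x using Con.induction_on with
  | H x =>
    induction y using Con.induction_on with
    | H y => rw [← Con.coe_mul, h1, h1, h1, Inn_mul hQ hk, Con.coe_mul]

end quotient

end Pool.Agent.OddAuto34
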