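import Pool.Agent.OddAuto34.Trans

/-!
# Identities for the inner mappings `M_{x,y}` on a minimal normal abelian subloop
-/

namespace Pool.Agent.OddAuto34

universe u

section ring

/-- the final ring computation -/
theorem ring_id {E : Type*} [Ring E] (m tx ty p1 F W : Eˣ)
    (h1 : ((m : E) - 1) * tx = m - 1) (h2 : ((m : E) - 1) * ty = m - 1)
    (hp1 : (p1 : E) = 1 - ty * (m - 1))
    (hF : ((F⁻¹ : Eˣ) : E) = 1 + ((tx⁻¹ : Eˣ) : E) * (1 - ((m⁻¹ : Eˣ) : E)))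
    (hW : ((W⁻¹ : Eˣ) : E) = 1 + ((tx⁻¹ : Eˣ) : E) * (1 - ((p1⁻¹ : Eˣ) : E)))
    (hW2 : (W : E) = 1 - ty * (F - 1)) :
    4 * (((m : E) - 1) * ((m : E) - 1) * ((m : E) - 1)) = 0 := by
  set c : E := (m : E) - 1 with hc
  have hm : (m : E) = 1 + c := by rw [hc]; abel
  have hctx : c * ((tx⁻¹ : Eˣ) : E) = c := by
    calc c * ((tx⁻¹ : Eˣ) : E) = (c * tx) * ((tx⁻¹ : Eˣ) : E) := by rw [h1]
      _ = c := by rw [mul_assoc]; simp
  -- c F⁻¹ = 2c - c m⁻¹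
  have e1 : c * ((F⁻¹ : Eˣ) : E) = 2 * c - c * ((m⁻¹ : Eˣ) : E) := by
    rw [hF, mul_add, ← mul_assoc, hctx]; noncomm_ring
  have e1' : c * ((m⁻¹ : Eˣ) : E) + c * (c * ((m⁻¹ : Eˣ) : E)) = c := by
    have : (1 + c) * (c * ((m⁻¹ : Eˣ) : E)) = c := by
      calc (1 + c) * (c * ((m⁻¹ : Eˣ) : E)) = c * ((1 + c) * ((m⁻¹ : Eˣ) : E)) := by
            noncomm_ring
        _ = c := by rw [← hm]; simp
    calc c * ((m⁻¹ : Eˣ) : E) + c * (c * ((m⁻¹ : Eˣ) : E))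
        = (1 + c) * (c * ((m⁻¹ : Eˣ) : E)) := by noncomm_ring
      _ = c := this
  have e2 : (1 + c) * (c * ((F⁻¹ : Eˣ) : E)) = (1 + 2 * c) * c := by
    rw [e1]
    have : (1 + c) * (2 * c - c * ((m⁻¹ : Eˣ) : E))
        = 2 * c + 2 * (c * c) - (c * ((m⁻¹ : Eˣ) : E) + c * (c * ((m⁻¹ : Eˣ) : E))) := by
      noncomm_ring
    rw [this, e1']; noncomm_ring
  have e3 : (1 + c) * c = (1 + 2 * c) * (c * F) := by
    calc (1 + c) * c = (1 + c) * (c * ((F⁻¹ : Eˣ) : E)) * F := by simp [mul_assoc]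
      _ = (1 + 2 * c) * (c * F) := by rw [e2, mul_assoc]
  -- c p1 = (1 - c) c
  have e4 : c * p1 = (1 - c) * c := by
    rw [hp1, mul_sub, mul_one, ← mul_assoc, h2]; noncomm_ring
  have e5 : c = (1 - c) * (c * ((p1⁻¹ : Eˣ) : E)) := by
    calc c = c * p1 * ((p1⁻¹ : Eˣ) : E) := by simp [mul_assoc]
      _ = (1 - c) * (c * ((p1⁻¹ : Eˣ) : E)) := by rw [e4, mul_assoc]
  have e6 : c * ((W⁻¹ : Eˣ) : E) = 2 * c - c * ((p1⁻¹ : Eˣ) : E) := by
    rw [hW, mul_add, ← mul_assoc, hctx]; noncomm_ring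
  have e7 : (1 - c) * (c * ((W⁻¹ : Eˣ) : E)) = (1 - 2 * c) * c := by
    rw [e6, mul_sub, ← e5]; noncomm_ring
  have e8 : c * W = 2 * c - c * F := by
    rw [hW2, mul_sub, mul_one, ← mul_assoc, h2]; noncomm_ring
  have e9 : (1 + 2 * c) * (c * W) = (1 + 3 * c) * c := by
    rw [e8, mul_sub, ← e3]; noncomm_ring
  have e10 : (1 + 2 * c) * c = (1 + 3 * c) * (c * ((W⁻¹ : Eˣ) : E)) := by
    calc (1 + 2 * c) * c = (1 + 2 * c) * (c * W) * ((W⁻¹ : Eˣ) : E) := by simp [mul_assoc]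
      _ = (1 + 3 * c) * (c * ((W⁻¹ : Eˣ) : E)) := by rw [e9, mul_assoc]
  have e11 : (1 - c) * ((1 + 2 * c) * c) = (1 + 3 * c) * ((1 - 2 * c) * c) := by
    rw [e10, ← e7]; noncomm_ring
  have e12 : (1 - c) * ((1 + 2 * c) * c) - (1 + 3 * c) * ((1 - 2 * c) * c) = 4 * (c * c * c) := by
    noncomm_ring
  rw [← e12, e11, sub_self]

end ring

variable {Q : Type u} [MulOneClass Q] [IsLoop Q]

namespace Emb

variable {A : Type u} [AddCommGroup A] (E : Emb Q A)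

/-- restriction to `A` as units of the endomorphism ring -/
noncomputable def rhoU (hQ : IsAutomorphic Q) : Inn Q →* (AddMonoid.End A)ˣ :=
  (E.rho hQ).toHomUnits

lemma rhoU_val (hQ : IsAutomorphic Q) (h : Inn Q) :
    ((E.rhoU hQ h : (AddMonoid.End A)ˣ) : AddMonoid.End A) = E.rho hQ h := rfl

/-- `M_{x,y}` restricted to `A` -/
noncomputable def mU (hQ : IsAutomorphic Q) (x y : Q) : (AddMonoid.End A)ˣ :=
  E.rhoU hQ ⟨MM x y, MM_mem x y⟩

/-- `T_x` restricted to `A` -/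
noncomputable def tU (hQ : IsAutomorphic Q) (x : Q) : (AddMonoid.End A)ˣ :=
  E.rhoU hQ ⟨T x, T_mem x⟩

lemma tU_iv (hQ : IsAutomorphic Q) (x : Q) : E.tU hQ (iv Q x) = (E.tU hQ x)⁻¹ := by
  unfold tU
  rw [← map_inv]
  congr 1
  ext1
  exact T_iv hQ x

variable [Finite Q]
variable {p : ℕ} [Fact p.Prime] [Finite A] [Nontrivial A]
  (hp : ∀ a : A, p • a = 0) (hQ : IsAutomorphic Q)

omit [Finite Q] [Finite A] [Nontrivial A] in
lemma i_tU (x : Q) (v : A) : E.i ((E.tU hQ x : AddMonoid.End A) v) = T x (E.i v) :=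
  E.i_rho hQ ⟨T x, T_mem x⟩ v

omit [Finite Q] [Finite A] [Nontrivial A] in
lemma i_mU (x y : Q) (v : A) : E.i ((E.mU hQ x y : AddMonoid.End A) v) = MM x y (E.i v) :=
  E.i_rho hQ ⟨MM x y, MM_mem x y⟩ v

omit [Finite Q] [Finite A] [Nontrivial A] in
/-- `x * i w = i (t_x w) * x` -/
lemma mul_i (x : Q) (w : A) : x * E.i w = E.i ((E.tU hQ x : AddMonoid.End A) w) * x := by
  rw [E.i_tU hQ, T_spec]

omit [Finite Q] [Finite A] [Nontrivial A] in
lemma iv_i (w : A) : iv Q (E.i w) = E.i (-w) := by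
  symm
  apply iv_eq
  rw [← E.i_add]; simp [E.i_zero]

include hp

lemma RR_formula' (v : A) (x y : Q) :
    RR (E.i v) y x = x * E.i (v - (E.mU hQ x y : AddMonoid.End A) v) :=
  E.RR_formula hp hQ v x y

lemma LL_formula' (v : A) (x y : Q) :
    LL y (E.i v) x
      = E.i (v - (((E.mU hQ y x)⁻¹ : (AddMonoid.End A)ˣ) : AddMonoid.End A) v) * x := by
  apply E.LL_formula hp hQ
  change (E.mU hQ y x : AddMonoid.End A)
    ((((E.mU hQ y x)⁻¹ : (AddMonoid.End A)ˣ) : AddMonoid.End A) v) = v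
  have : (E.mU hQ y x : AddMonoid.End A)
    * (((E.mU hQ y x)⁻¹ : (AddMonoid.End A)ˣ) : AddMonoid.End A) = 1 := by simp
  exact DFunLike.congr_fun this v

lemma K1a (x y : Q) :
    ((E.mU hQ x y : AddMonoid.End A) - 1) * (E.tU hQ y : AddMonoid.End A)
      = (E.mU hQ x y : AddMonoid.End A) - 1 := by
  ext v
  -- R_{v,y} fixes y
  have h1 : RR (E.i v) y y = y := by
    apply rcancel (a := E.i v * y)
    rw [RR_spec, flex hQ]
  have h2 := conj_T hQ (RR_mem (E.i v) y) y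
  rw [h1] at h2
  have h3 := conj_RR hQ (T_mem y) (E.i v) y
  rw [T_self] at h3
  have h4 : RR (T y (E.i v)) y = RR (E.i v) y := by
    rw [← h3]
    have h5 : RR (E.i v) y * T y = T y * RR (E.i v) y := by
      rw [mul_inv_eq_iff_eq_mul] at h2; exact h2
    rw [← h5]; group
  rw [← E.i_tU hQ] at h4
  have h6 : RR (E.i ((E.tU hQ y : AddMonoid.End A) v)) y x = RR (E.i v) y x := by rw [h4]
  rw [E.RR_formula' hp hQ, E.RR_formula' hp hQ] at h6
  have h7 := E.inj (lcancel h6)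
  change (E.mU hQ x y : AddMonoid.End A) ((E.tU hQ y : AddMonoid.End A) v)
    - (E.tU hQ y : AddMonoid.End A) v = (E.mU hQ x y : AddMonoid.End A) v - v
  rw [← neg_sub, h7, neg_sub]

lemma K1b (x y : Q) :
    ((E.mU hQ y x : AddMonoid.End A) - 1) * (E.tU hQ y : AddMonoid.End A)
      = (E.mU hQ y x : AddMonoid.End A) - 1 := by
  have key : ∀ v : A, (E.tU hQ y : AddMonoid.End A) v
      - (((E.mU hQ y x)⁻¹ : (AddMonoid.End A)ˣ) : AddMonoid.End A)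
        ((E.tU hQ y : AddMonoid.End A) v)
      = v - (((E.mU hQ y x)⁻¹ : (AddMonoid.End A)ˣ) : AddMonoid.End A) v := by
    intro v
    have h1 : LL y (E.i v) y = y := by
      apply lcancel (a := y * E.i v)
      rw [LL_spec, flex hQ]
    have h2 := conj_T hQ (LL_mem y (E.i v)) y
    rw [h1] at h2
    have h3 := conj_LL hQ (T_mem y) y (E.i v)
    rw [T_self] at h3
    have h4 : LL y (T y (E.i v)) = LL y (E.i v) := by
      rw [← h3]
      have h5 : LL y (E.i v) * T y = T y * LL y (E.i v) := by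
        rw [mul_inv_eq_iff_eq_mul] at h2; exact h2
      rw [← h5]; group
    rw [← E.i_tU hQ] at h4
    have h6 : LL y (E.i ((E.tU hQ y : AddMonoid.End A) v)) x = LL y (E.i v) x := by rw [h4]
    rw [E.LL_formula' hp hQ, E.LL_formula' hp hQ] at h6
    exact E.inj (rcancel h6)
  have key2 : (1 - (((E.mU hQ y x)⁻¹ : (AddMonoid.End A)ˣ) : AddMonoid.End A))
      * (E.tU hQ y : AddMonoid.End A)
      = 1 - (((E.mU hQ y x)⁻¹ : (AddMonoid.End A)ˣ) : AddMonoid.End A) := by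
    ext v
    exact key v
  have e : (E.mU hQ y x : AddMonoid.End A) - 1
      = (E.mU hQ y x : AddMonoid.End A)
        * (1 - (((E.mU hQ y x)⁻¹ : (AddMonoid.End A)ˣ) : AddMonoid.End A)) := by
    rw [mul_sub, mul_one]; simp
  rw [e, mul_assoc, key2]

lemma N1 (x y : Q) :
    (E.mU hQ (iv Q x) y : AddMonoid.End A)
      = 1 - (E.tU hQ x : AddMonoid.End A) * ((E.mU hQ x y : AddMonoid.End A) - 1) := by
  have key : (((E.tU hQ x)⁻¹ : (AddMonoid.End A)ˣ) : AddMonoid.End A)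
      * (1 - (E.mU hQ (iv Q x) y : AddMonoid.End A))
      = (E.mU hQ x y : AddMonoid.End A) - 1 := by
    ext v
    have h1 : RR (E.i v) y (iv Q x) = iv Q (RR (E.i v) y x) := Inn_iv hQ (RR_mem _ _) x
    rw [E.RR_formula' hp hQ, E.RR_formula' hp hQ, aaip hQ, E.iv_i,
      E.mul_i hQ, E.tU_iv] at h1
    have h2 := E.inj (rcancel h1)
    change (((E.tU hQ x)⁻¹ : (AddMonoid.End A)ˣ) : AddMonoid.End A)
      (v - (E.mU hQ (iv Q x) y : AddMonoid.End A) v) = (E.mU hQ x y : AddMonoid.End A) v - v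
    rw [h2]; abel
  rw [← key, ← mul_assoc]
  simp

lemma N1' (x y : Q) :
    (((E.mU hQ y (iv Q x))⁻¹ : (AddMonoid.End A)ˣ) : AddMonoid.End A)
      = 1 + (((E.tU hQ x)⁻¹ : (AddMonoid.End A)ˣ) : AddMonoid.End A)
        * (1 - (((E.mU hQ y x)⁻¹ : (AddMonoid.End A)ˣ) : AddMonoid.End A)) := by
  ext v
  have h1 : LL y (E.i v) (iv Q x) = iv Q (LL y (E.i v) x) := Inn_iv hQ (LL_mem _ _) x
  rw [E.LL_formula' hp hQ, E.LL_formula' hp hQ, aaip hQ, E.iv_i,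
    E.mul_i hQ, E.tU_iv] at h1
  have h2 := E.inj (rcancel h1)
  rw [map_neg] at h2
  change (((E.mU hQ y (iv Q x))⁻¹ : (AddMonoid.End A)ˣ) : AddMonoid.End A) v
    = v + (((E.tU hQ x)⁻¹ : (AddMonoid.End A)ˣ) : AddMonoid.End A)
      (v - (((E.mU hQ y x)⁻¹ : (AddMonoid.End A)ˣ) : AddMonoid.End A) v)
  rw [← sub_eq_iff_eq_add', ← neg_sub, h2, neg_neg]

/-- the cube of `M_{y,x} - 1` vanishes on `A` up to the factor `4` -/
lemma cube (x y : Q) :
    4 * (((E.mU hQ y x : AddMonoid.End A) - 1) * ((E.mU hQ y x : AddMonoid.End A) - 1)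
      * ((E.mU hQ y x : AddMonoid.End A) - 1)) = 0 :=
  ring_id (E.mU hQ y x) (E.tU hQ x) (E.tU hQ y) (E.mU hQ (iv Q y) x) (E.mU hQ y (iv Q x))
    (E.mU hQ (iv Q y) (iv Q x)) (E.K1a hp hQ y x) (E.K1b hp hQ x y) (E.N1 hp hQ y x)
    (E.N1' hp hQ x y) (E.N1' hp hQ x (iv Q y)) (E.N1 hp hQ y (iv Q x))

end Emb

end Pool.Agent.OddAuto34
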