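import Pool.Agent.OddAuto34.Affine

/-!
# Solvable loops: quotients, minimal normal subloops
-/

namespace Pool.Agent.OddAuto34

universe u

/-- A loop is solvable if it has a finite series `Q = S 0 ⊇ S 1 ⊇ ... ⊇ S n = {1}` such that
`S (i + 1)` is the kernel of a homomorphism from `S i` to a commutative group. -/
def IsSolvableLoop (Q : Type u) [MulOneClass Q] : Prop :=
  ∃ (n : ℕ) (S : ℕ → Set Q), S 0 = Set.univ ∧ S n = {1} ∧
    ∀ i < n, ∃ (A : Type u) (_ : CommGroup A) (f : Q → A),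
      (∀ x ∈ S i, ∀ y ∈ S i, f (x * y) = f x * f y) ∧ S (i + 1) = {x | x ∈ S i ∧ f x = 1}

section general

variable {Q : Type u} [MulOneClass Q] [IsLoop Q]

/-- `U` is a multiplicatively closed subset containing `1` -/
structure MSub (U : Set Q) : Prop where
  one_mem : (1 : Q) ∈ U
  mul_mem : ∀ u ∈ U, ∀ w ∈ U, u * w ∈ U

namespace MSub

variable {U : Set Q} (hU : MSub U) [Finite Q]
include hU

lemma ldiv {a x : Q} (ha : a ∈ U) (hx : x ∈ U) : ∃ y ∈ U, a * y = x := by
  have hinj : Function.Injective (fun w : U => (⟨a * w.1, hU.mul_mem _ ha _ w.2⟩ : U)) := by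
    intro w z hwz
    have := congrArg Subtype.val hwz
    exact Subtype.ext (lcancel this)
  obtain ⟨w, hw⟩ := Finite.surjective_of_injective hinj ⟨x, hx⟩
  exact ⟨w.1, w.2, congrArg Subtype.val hw⟩

lemma rdiv {a x : Q} (ha : a ∈ U) (hx : x ∈ U) : ∃ y ∈ U, y * a = x := by
  have hinj : Function.Injective (fun w : U => (⟨w.1 * a, hU.mul_mem _ w.2 _ ha⟩ : U)) := by
    intro w z hwz
    have := congrArg Subtype.val hwz
    exact Subtype.ext (rcancel this)
  obtain ⟨w, hw⟩ := Finite.surjective_of_injective hinj ⟨x, hx⟩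
  exact ⟨w.1, w.2, congrArg Subtype.val hw⟩

omit [Finite Q] [IsLoop Q] in
lemma map_one {A : Type u} [CommGroup A] {f : Q → A}
    (hf : ∀ x ∈ U, ∀ y ∈ U, f (x * y) = f x * f y) : f 1 = 1 := by
  have h := hf 1 hU.one_mem 1 hU.one_mem
  rw [mul_one] at h
  exact (mul_eq_left.mp h.symm)

end MSub

omit [IsLoop Q] in
lemma chain_MSub {n : ℕ} {S : ℕ → Set Q} (h0 : S 0 = Set.univ)
    (hS : ∀ i < n, ∃ (A : Type u) (_ : CommGroup A) (f : Q → A),
      (∀ x ∈ S i, ∀ y ∈ S i, f (x * y) = f x * f y) ∧ S (i + 1) = {x | x ∈ S i ∧ f x = 1}) :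
    ∀ i ≤ n, MSub (S i) := by
  intro i
  induction i with
  | zero => intro _; rw [h0]; exact ⟨trivial, fun _ _ _ _ => trivial⟩
  | succ i ih =>
    intro hi
    have hM := ih (by omega)
    obtain ⟨A, _, f, hf, hS1⟩ := hS i (by omega)
    rw [hS1]
    refine ⟨⟨hM.one_mem, hM.map_one hf⟩, ?_⟩
    rintro u ⟨hu, hu1⟩ w ⟨hw, hw1⟩
    exact ⟨hM.mul_mem u hu w hw, by rw [hf u hu w hw, hu1, hw1, mul_one]⟩

variable [Finite Q]

/-- The image of `V ∩ U` under a map multiplicative on `U` to a commutative group is a subgroup. -/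
def imageSub {U V : Set Q} (hU : MSub U) (hV : MSub V) {A : Type u} [CommGroup A] {f : Q → A}
    (hf : ∀ x ∈ U, ∀ y ∈ U, f (x * y) = f x * f y) : Subgroup A where
  carrier := {a | ∃ v, v ∈ V ∧ v ∈ U ∧ f v = a}
  one_mem' := ⟨1, hV.one_mem, hU.one_mem, hU.map_one hf⟩
  mul_mem' := by
    rintro _ _ ⟨v, hv, hv', rfl⟩ ⟨w, hw, hw', rfl⟩
    exact ⟨v * w, hV.mul_mem _ hv _ hw, hU.mul_mem _ hv' _ hw', hf v hv' w hw'⟩
  inv_mem' := by
    rintro _ ⟨v, hv, hv', rfl⟩
    obtain ⟨w, hw, h1⟩ := hU.rdiv hv' hU.one_mem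
    obtain ⟨w2, hw2, h2⟩ := hV.rdiv hv hV.one_mem
    have h3 : w = w2 := rcancel (h1.trans h2.symm)
    refine ⟨w, h3 ▸ hw2, hw, ?_⟩
    have h4 := hf w hw v hv'
    rw [h1, hU.map_one hf] at h4
    exact eq_inv_of_mul_eq_one_left h4.symm

omit [IsLoop Q] [Finite Q] in
lemma class_MSub (c : Con Q) : MSub {x : Q | (x : c.Quotient) = 1} := by
  refine ⟨Con.coe_one, ?_⟩
  intro u hu w hw
  change ((u * w : Q) : c.Quotient) = 1
  have hu' : (u : c.Quotient) = 1 := hu
  have hw' : (w : c.Quotient) = 1 := hw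
  rw [Con.coe_mul, hu', hw', mul_one]

theorem solvable_quotient (c : Con Q) (hs : IsSolvableLoop Q) : IsSolvableLoop c.Quotient := by
  classical
  obtain ⟨n, S, h0, hn, hS⟩ := hs
  have hM := chain_MSub h0 hS
  refine ⟨n, fun i => (fun x : Q => (x : c.Quotient)) '' S i, ?_, ?_, ?_⟩
  · simp only [h0, Set.image_univ]
    ext x
    simp only [Set.mem_range, Set.mem_univ, iff_true]
    induction x using Con.induction_on with
    | H x => exact ⟨x, rfl⟩
  · simp only [hn, Set.image_singleton, Con.coe_one]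
  · intro i hi
    obtain ⟨A, _, f, hf, hS1⟩ := hS i hi
    have hMi := hM i hi.le
    let N : Subgroup A := imageSub hMi (class_MSub c) hf
    -- the key: `f` is well defined modulo `N`
    have key : ∀ x ∈ S i, ∀ y ∈ S i, (x : c.Quotient) = (y : c.Quotient) →
        (QuotientGroup.mk (f x) : A ⧸ N) = QuotientGroup.mk (f y) := by
      intro x hx y hy hxy
      obtain ⟨v, hv, h1⟩ := hMi.ldiv hx hy
      have h2 : (v : c.Quotient) = 1 := by
        apply lcancel (a := (x : c.Quotient))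
        rw [← Con.coe_mul, h1, mul_one, hxy]
      rw [QuotientGroup.eq]
      refine ⟨v, h2, hv, ?_⟩
      have h3 := hf x hx v hv
      rw [h1] at h3
      rw [h3]; group
    refine ⟨A ⧸ N, inferInstance, fun q =>
      if h : ∃ x ∈ S i, (x : c.Quotient) = q then QuotientGroup.mk (f h.choose) else 1, ?_, ?_⟩
    · rintro _ ⟨x, hx, rfl⟩ _ ⟨y, hy, rfl⟩
      have ex : ∃ z ∈ S i, (z : c.Quotient) = (x : c.Quotient) := ⟨x, hx, rfl⟩
      have ey : ∃ z ∈ S i, (z : c.Quotient) = (y : c.Quotient) := ⟨y, hy, rfl⟩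
      have exy : ∃ z ∈ S i, (z : c.Quotient) = (x : c.Quotient) * (y : c.Quotient) :=
        ⟨x * y, hMi.mul_mem _ hx _ hy, Con.coe_mul _ _⟩
      simp only
      rw [dif_pos ex, dif_pos ey, dif_pos exy]
      have k1 := key _ ex.choose_spec.1 x hx ex.choose_spec.2
      have k2 := key _ ey.choose_spec.1 y hy ey.choose_spec.2
      have k3 := key _ exy.choose_spec.1 (x * y) (hMi.mul_mem _ hx _ hy)
        (exy.choose_spec.2.trans (Con.coe_mul _ _).symm)
      rw [k1, k2, k3, hf x hx y hy, QuotientGroup.mk_mul]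
    · ext q
      constructor
      · rintro ⟨x, hx, rfl⟩
        rw [hS1] at hx
        refine ⟨⟨x, hx.1, rfl⟩, ?_⟩
        have ex : ∃ z ∈ S i, (z : c.Quotient) = (x : c.Quotient) := ⟨x, hx.1, rfl⟩
        simp only
        rw [dif_pos ex]
        rw [key _ ex.choose_spec.1 x hx.1 ex.choose_spec.2, hx.2, QuotientGroup.mk_one]
      · rintro ⟨⟨x, hx, rfl⟩, h1⟩
        have ex : ∃ z ∈ S i, (z : c.Quotient) = (x : c.Quotient) := ⟨x, hx, rfl⟩
        simp only at h1
        rw [dif_pos ex, key _ ex.choose_spec.1 x hx ex.choose_spec.2,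
          QuotientGroup.eq_one_iff] at h1
        obtain ⟨v, hv, hv', h2⟩ := h1
        obtain ⟨y, hy, h3⟩ := hMi.ldiv hv' hx
        have hv1 : (v : c.Quotient) = 1 := hv
        refine ⟨y, ?_, ?_⟩
        · rw [hS1]
          refine ⟨hy, ?_⟩
          have h4 := hf v hv' y hy
          rw [h3, h2] at h4
          exact (mul_eq_left.mp h4.symm)
        · simp only
          rw [← h3, Con.coe_mul, hv1, one_mul]

theorem exists_minimal (h : 1 < Nat.card Q) :
    ∃ V : Set Q, NSub V ∧ V ≠ {1} ∧ ∀ U : Set Q, NSub U → U ⊆ V → U = {1} ∨ U = V := by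
  classical
  have hex : ∃ n : ℕ, ∃ V : Set Q, NSub V ∧ V ≠ {1} ∧ V.ncard = n := by
    refine ⟨_, Set.univ, ⟨trivial, fun _ _ _ _ => trivial, fun _ _ _ _ => trivial⟩, ?_, rfl⟩
    intro h1
    have h2 := Set.ncard_univ Q
    rw [h1, Set.ncard_singleton] at h2
    omega
  obtain ⟨V, hV, hV1, hVn⟩ := Nat.find_spec hex
  refine ⟨V, hV, hV1, fun U hU hUV => ?_⟩
  by_cases hU1 : U = {1}
  · exact Or.inl hU1
  · right
    have h3 := Nat.find_min' hex ⟨U, hU, hU1, rfl⟩
    exact Set.eq_of_subset_of_ncard_le hUV (by rw [hVn]; exact h3) (Set.toFinite V)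

omit [Finite Q] in
lemma NSub.msub {V : Set Q} (hV : NSub V) : MSub V := ⟨hV.one_mem, hV.mul_mem⟩

/-- the size of a normal subloop divides the size of the loop -/
lemma card_dvd {V : Set Q} (hV : NSub V) : Nat.card V ∣ Nat.card Q := by
  classical
  have e := Equiv.sigmaFiberEquiv (fun x : Q => (x : hV.con.Quotient))
  have hfib : ∀ q : hV.con.Quotient, Nat.card {x : Q // (x : hV.con.Quotient) = q} = Nat.card V := by
    intro q
    induction q using Con.induction_on with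
    | H x =>
      refine (Nat.card_congr (Equiv.ofBijective
        (fun v : V => (⟨v.1 * x, ?_⟩ : {y : Q // (y : hV.con.Quotient) = (x : hV.con.Quotient)}))
        ⟨?_, ?_⟩)).symm
      · exact (hV.con.eq.2 ⟨v.1, v.2, rfl⟩ : (x : hV.con.Quotient) = _).symm
      · intro v w hvw
        exact Subtype.ext (rcancel (congrArg Subtype.val hvw))
      · rintro ⟨y, hy⟩
        obtain ⟨u, hu, rfl⟩ := hV.con.eq.1 hy.symm
        exact ⟨⟨u, hu⟩, rfl⟩
  rw [← Nat.card_congr e]
  have : Fintype hV.con.Quotient := Fintype.ofFinite _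
  rw [Nat.card_sigma]
  simp only [hfib, Finset.sum_const, smul_eq_mul]
  exact Dvd.intro_left _ rfl

theorem exists_emb (hQ : IsAutomorphic Q) (hodd : Odd (Nat.card Q)) (hs : IsSolvableLoop Q)
    (V : Set Q) (hV : NSub V) (hV1 : V ≠ {1})
    (hmin : ∀ U : Set Q, NSub U → U ⊆ V → U = {1} ∨ U = V) :
    ∃ (A : Type u) (_ : AddCommGroup A) (_ : Finite A) (_ : Nontrivial A) (p : ℕ)
      (_ : p.Prime) (E : Emb Q A), p ≠ 2 ∧ (∀ a : A, p • a = 0) ∧ Set.range E.i = V := by
  classical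
  obtain ⟨n, S, h0, hn, hS⟩ := hs
  -- the least `i` with `V` not inside `S (i + 1)`
  have hex : ∃ i, ¬ V ⊆ S i := by
    refine ⟨n, fun h => hV1 ?_⟩
    rw [hn] at h
    exact Set.Subset.antisymm h (by rintro x rfl; exact hV.one_mem)
  obtain ⟨m, hm⟩ : ∃ m, m = Nat.find hex := ⟨_, rfl⟩
  have hm1 : ¬ V ⊆ S m := by rw [hm]; exact Nat.find_spec hex
  have hmn : m ≤ n := by
    rw [hm]
    apply Nat.find_min'
    intro h
    apply hV1
    rw [hn] at h
    exact Set.Subset.antisymm h (by rintro x rfl; exact hV.one_mem)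
  have hm0 : m ≠ 0 := by
    rintro rfl
    exact hm1 (by rw [h0]; exact Set.subset_univ V)
  obtain ⟨i, rfl⟩ : ∃ i, m = i + 1 := ⟨m - 1, by omega⟩
  have hVi : V ⊆ S i := by
    by_contra h
    have := Nat.find_min' hex h
    omega
  obtain ⟨B, _, f, hf, hS1⟩ := hS i (by omega)
  have hfV : ∀ x ∈ V, ∀ y ∈ V, f (x * y) = f x * f y :=
    fun x hx y hy => hf x (hVi hx) y (hVi hy)
  -- the elements killed by all conjugates of `f`
  have hker : ∀ v ∈ V, (∀ h ∈ Inn Q, f (h v) = 1) → v = 1 := by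
    have hN : NSub {v | v ∈ V ∧ ∀ h ∈ Inn Q, f (h v) = 1} := by
      refine ⟨⟨hV.one_mem, fun h hh => ?_⟩, ?_, ?_⟩
      · rw [hh.2]; exact hV.msub.map_one hfV
      · rintro u ⟨hu, hu1⟩ w ⟨hw, hw1⟩
        refine ⟨hV.mul_mem u hu w hw, fun h hh => ?_⟩
        rw [Inn_mul hQ hh, hfV _ (hV.inn_mem h hh u hu) _ (hV.inn_mem h hh w hw), hu1 h hh,
          hw1 h hh, mul_one]
      · rintro k hk u ⟨hu, hu1⟩
        exact ⟨hV.inn_mem k hk u hu, fun h hh => hu1 (h * k) (mul_mem hh hk)⟩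
    rcases hmin _ hN (fun x hx => hx.1) with h1 | h1
    · intro v hv hv1
      have : v ∈ ({v | v ∈ V ∧ ∀ h ∈ Inn Q, f (h v) = 1} : Set Q) := ⟨hv, hv1⟩
      rw [h1] at this
      exact this
    · exfalso
      apply hm1
      rw [hS1]
      intro v hv
      have : v ∈ ({v | v ∈ V ∧ ∀ h ∈ Inn Q, f (h v) = 1} : Set Q) := by rw [h1]; exact hv
      exact ⟨hVi hv, this.2 1 (one_mem _)⟩
  have hsep : ∀ v ∈ V, ∀ w ∈ V, (∀ h ∈ Inn Q, f (h v) = f (h w)) → v = w := by
    intro v hv w hw hvw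
    obtain ⟨t, ht, rfl⟩ := hV.msub.rdiv hw hv
    have : t = 1 := by
      apply hker t ht
      intro h hh
      have h1 := hvw h hh
      rw [Inn_mul hQ hh, hfV _ (hV.inn_mem h hh t ht) _ (hV.inn_mem h hh w hw)] at h1
      exact mul_eq_right.mp h1
    rw [this, one_mul]
  have hmap : ∀ h ∈ Inn Q, ∀ v ∈ V, ∀ w ∈ V, f (h (v * w)) = f (h v) * f (h w) := by
    intro h hh v hv w hw
    rw [Inn_mul hQ hh, hfV _ (hV.inn_mem h hh v hv) _ (hV.inn_mem h hh w hw)]
  have hcomm : ∀ v ∈ V, ∀ w ∈ V, v * w = w * v := by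
    intro v hv w hw
    apply hsep _ (hV.mul_mem v hv w hw) _ (hV.mul_mem w hw v hv)
    intro h hh
    rw [hmap h hh v hv w hw, hmap h hh w hw v hv, mul_comm]
  have hassoc : ∀ v ∈ V, ∀ w ∈ V, ∀ z ∈ V, v * w * z = v * (w * z) := by
    intro v hv w hw z hz
    have hvw := hV.mul_mem v hv w hw
    have hwz := hV.mul_mem w hw z hz
    apply hsep _ (hV.mul_mem _ hvw z hz) _ (hV.mul_mem v hv _ hwz)
    intro h hh
    rw [hmap h hh _ hvw z hz, hmap h hh v hv w hw, hmap h hh v hv _ hwz, hmap h hh w hw z hz,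
      mul_assoc]
  -- the commutative group structure on `V`
  have hinv : ∀ v : V, ∃ w : V, w.1 * v.1 = 1 := by
    rintro ⟨v, hv⟩
    obtain ⟨w, hw, h1⟩ := hV.exists_inv hv
    exact ⟨⟨w, hw⟩, h1⟩
  choose ivV hivV using hinv
  let inst : CommGroup V :=
    { mul := fun v w => ⟨v.1 * w.1, hV.mul_mem _ v.2 _ w.2⟩
      one := ⟨1, hV.one_mem⟩
      inv := ivV
      mul_assoc := fun a b c => Subtype.ext (hassoc _ a.2 _ b.2 _ c.2)
      one_mul := fun a => Subtype.ext (one_mul a.1)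
      mul_one := fun a => Subtype.ext (mul_one a.1)
      inv_mul_cancel := fun a => Subtype.ext (hivV a)
      mul_comm := fun a b => Subtype.ext (hcomm _ a.2 _ b.2) }
  have hmulV : ∀ a b : V, (a * b).1 = a.1 * b.1 := fun a b => rfl
  have honeV : (1 : V).1 = 1 := rfl
  have hnt : Nontrivial V := by
    by_contra hno
    rw [not_nontrivial_iff_subsingleton] at hno
    apply hV1
    apply Set.Subset.antisymm
    · intro v hv
      have := congrArg Subtype.val (hno.elim ⟨v, hv⟩ (1 : V))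
      exact this
    · rintro x rfl; exact hV.one_mem
  have hcard : Nat.card V ≠ 1 := by
    have := Finite.one_lt_card (α := V)
    omega
  obtain ⟨p, hp, hpd⟩ := Nat.exists_prime_and_dvd hcard
  have hp2 : p ≠ 2 := by
    rintro rfl
    have h2 := hpd.trans (card_dvd hV)
    rw [← Nat.not_even_iff_odd, even_iff_two_dvd] at hodd
    exact hodd h2
  have hfact := Fact.mk hp
  -- inner mappings restricted to `V`
  have hpowh : ∀ h ∈ Inn Q, ∀ (v : V) (w : V), w.1 = h v.1 → ∀ k : ℕ, (w ^ k).1 = h (v ^ k).1 := by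
    intro h hh v w hvw k
    induction k with
    | zero => rw [pow_zero, pow_zero, honeV, hh.2]
    | succ k ih => rw [pow_succ, pow_succ, hmulV, hmulV, ih, hvw, Inn_mul hQ hh]
  have hall : ∀ v : V, v ^ p = 1 := by
    have hN : NSub {x : Q | ∃ h : x ∈ V, (⟨x, h⟩ : V) ^ p = 1} := by
      refine ⟨⟨hV.one_mem, one_pow p⟩, ?_, ?_⟩
      · rintro u ⟨hu, hu1⟩ w ⟨hw, hw1⟩
        refine ⟨hV.mul_mem u hu w hw, ?_⟩
        have : (⟨u * w, hV.mul_mem u hu w hw⟩ : V) = ⟨u, hu⟩ * ⟨w, hw⟩ := rfl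
        rw [this, mul_pow, hu1, hw1, mul_one]
      · rintro k hk u ⟨hu, hu1⟩
        refine ⟨hV.inn_mem k hk u hu, ?_⟩
        apply Subtype.ext
        rw [hpowh k hk ⟨u, hu⟩ ⟨k u, hV.inn_mem k hk u hu⟩ rfl p, hu1, honeV, hk.2]
    rcases hmin _ hN (fun x hx => hx.1) with h1 | h1
    · exfalso
      obtain ⟨v, hv⟩ := exists_prime_orderOf_dvd_card' (G := V) p hpd
      have hv1 : v ^ p = 1 := by rw [← hv]; exact pow_orderOf_eq_one v
      have hmem : v.1 ∈ ({x : Q | ∃ h : x ∈ V, (⟨x, h⟩ : V) ^ p = 1} : Set Q) := ⟨v.2, hv1⟩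
      rw [h1] at hmem
      have : v = 1 := Subtype.ext hmem
      rw [this, orderOf_one] at hv
      exact hp.one_lt.ne hv
    · intro v
      have hmem : v.1 ∈ ({x : Q | ∃ h : x ∈ V, (⟨x, h⟩ : V) ^ p = 1} : Set Q) := by
        rw [h1]; exact v.2
      exact hmem.2
  have hrange : Set.range (fun a : Additive V => (Additive.toMul a).1) = V := by
    ext x
    constructor
    · rintro ⟨a, rfl⟩; exact (Additive.toMul a).2
    · intro hx; exact ⟨Additive.ofMul ⟨x, hx⟩, rfl⟩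
  refine ⟨Additive V, inferInstance, inferInstance, inferInstance, p, hp,
    { i := fun a => (Additive.toMul a).1
      i_zero := rfl
      i_add := fun a b => rfl
      inj := fun a b hab => Additive.toMul.injective (Subtype.ext hab)
      nsub := by rw [hrange]; exact hV
      irr := by rw [hrange]; exact hmin }, hp2, ?_, hrange⟩
  intro a
  exact Additive.toMul.injective (hall (Additive.toMul a))

end general

end Pool.Agent.OddAuto34
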