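import Pool.Agent.OddAuto34.Step
import Pool.Agent.OddAuto34.Solv

/-!
# Solvable automorphic loops of odd order: the induction and the main theorem
-/

namespace Pool.Agent.OddAuto34

universe u

lemma Emb.card_mul {Q : Type u} [MulOneClass Q] [IsLoop Q] {A : Type u} [AddCommGroup A]
    (E : Emb Q A) [Finite Q] : Nat.card Q = Nat.card A * Nat.card E.c.Quotient := by
  rw [← Nat.card_prod]
  symm
  apply Nat.card_congr
  have hout : ∀ k : E.c.Quotient, ((Quotient.out k : Q) : E.c.Quotient) = k :=
    fun k => Quotient.out_eq k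
  refine Equiv.ofBijective (fun z : A × E.c.Quotient => E.i z.1 * Quotient.out z.2) ⟨?_, ?_⟩
  · rintro ⟨a, k⟩ ⟨b, l⟩ hab
    have hab' : E.i a * Quotient.out k = E.i b * Quotient.out l := hab
    have h1 : ((E.i a * Quotient.out k : Q) : E.c.Quotient) = k := by
      rw [← hout k]
      exact E.c.eq.2 (by simpa [hout] using E.c_i_mul a (Quotient.out k))
    have h2 : ((E.i b * Quotient.out l : Q) : E.c.Quotient) = l := by
      rw [← hout l]
      exact E.c.eq.2 (by simpa [hout] using E.c_i_mul b (Quotient.out l))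
    have h3 : k = l := by rw [← h1, ← h2, hab']
    subst h3
    rw [E.inj (rcancel hab')]
  · intro x
    have h1 : E.c (Quotient.out (x : E.c.Quotient)) x := E.c.eq.1 (hout x)
    obtain ⟨a, ha⟩ := E.c_iff.1 h1
    exact ⟨(a, (x : E.c.Quotient)), ha.symm⟩

theorem PP_all : ∀ (n : ℕ) (Q : Type u) [MulOneClass Q] [IsLoop Q] [Finite Q],
    Nat.card Q = n → IsAutomorphic Q → Odd (Nat.card Q) → IsSolvableLoop Q → PP Q := by
  intro n
  induction n using Nat.strong_induction_on with
  | _ n ih =>
    intro Q _ _ _ hn hQ hodd hs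
    by_cases h1 : 1 < Nat.card Q
    · obtain ⟨V, hV, hV1, hmin⟩ := exists_minimal (Q := Q) h1
      obtain ⟨A, _, _, _, p, hp, E, hp2, hpA, hV2⟩ := exists_emb hQ hodd hs V hV hV1 hmin
      have := Fact.mk hp
      have hc := E.card_mul
      have hA : 1 < Nat.card A := Finite.one_lt_card
      have hKpos : 0 < Nat.card E.c.Quotient := Nat.card_pos
      have hlt : Nat.card E.c.Quotient < n := by
        rw [← hn, hc]; nlinarith
      have hKodd : Odd (Nat.card E.c.Quotient) := by
        rw [hc] at hodd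
        exact (Nat.odd_mul.1 hodd).2
      exact E.PP_step hpA hQ hp2 (ih _ hlt E.c.Quotient rfl (quotient_automorphic E.c hQ) hKodd
        (solvable_quotient E.c hs))
    · have hcard : Nat.card Q = 1 := by
        have : 0 < Nat.card Q := Nat.card_pos
        omega
      have hsub : Subsingleton Q := (Nat.card_eq_one_iff_unique.1 hcard).1
      refine ⟨inferInstance, 1, odd_one, fun g _ => Subsingleton.elim _ _⟩

/-- every minimal normal subloop is contained in the middle nucleus -/
theorem minimal_le (Q : Type u) [MulOneClass Q] [IsLoop Q] [Finite Q] (hQ : IsAutomorphic Q)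
    (hodd : Odd (Nat.card Q)) (hs : IsSolvableLoop Q) (V : Set Q) (hV : NSub V) (hV1 : V ≠ {1})
    (hmin : ∀ U : Set Q, NSub U → U ⊆ V → U = {1} ∨ U = V) (a : Q) (ha : a ∈ V) (x y : Q) :
    (x * a) * y = x * (a * y) := by
  obtain ⟨A, _, _, _, p, hp, E, hp2, hpA, hV2⟩ := exists_emb hQ hodd hs V hV hV1 hmin
  have := Fact.mk hp
  have hKodd : Odd (Nat.card E.c.Quotient) := by
    rw [E.card_mul] at hodd
    exact (Nat.odd_mul.1 hodd).2
  have hPP := PP_all _ E.c.Quotient rfl (quotient_automorphic E.c hQ) hKodd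
    (solvable_quotient E.c hs)
  rw [← hV2] at ha
  obtain ⟨b, rfl⟩ := ha
  exact E.middle hpA hQ hp2 hPP x y b

end Pool.Agent.OddAuto34
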