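import Mathlib

/-!
# A linear group lemma for `MP_7090ba_al`

Let `G` act irreducibly on a finite elementary abelian `p`-group `A`, `p` odd, and let `C` be a
solvable subgroup of `G` normalised by `G`, every element of which has an odd power commuting
with `C`.  Then `C` contains no nontrivial element `g` with `(g - 1)^2 = 0`.
-/

namespace OddAuto34

open Subgroup

section group

variable {U : Type*} [Group U]

theorem comm_pow_aux {x y z : U} (hz : x * y = z * (y * x)) (hzx : z * x = x * z) (n : ℕ) :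
    x ^ n * y = z ^ n * (y * x ^ n) := by
  induction n with
  | zero => simp
  | succ n ih =>
    have h1 : Commute z x := hzx
    have h2 : Commute (z ^ n) x := h1.pow_left n
    calc x ^ (n + 1) * y = x * (x ^ n * y) := by rw [pow_succ', mul_assoc]
      _ = x * (z ^ n * (y * x ^ n)) := by rw [ih]
      _ = z ^ n * (x * y) * x ^ n := by
        rw [← mul_assoc, ← h2.eq]; simp [mul_assoc]
      _ = z ^ n * (z * (y * x)) * x ^ n := by rw [hz]
      _ = z ^ (n + 1) * (y * x ^ (n + 1)) := by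
        rw [pow_succ z, pow_succ' x]; simp [mul_assoc]

theorem comm_pow_eq_one {x y z : U} (hz : x * y = z * (y * x)) (hzx : z * x = x * z) {n : ℕ}
    (h : x ^ n * y = y * x ^ n) : z ^ n = 1 := by
  have h1 := comm_pow_aux hz hzx n
  rw [h] at h1
  have h2 : (1 : U) * (y * x ^ n) = z ^ n * (y * x ^ n) := by rw [one_mul]; exact h1
  exact (mul_right_cancel h2).symm

end group

section fixed

variable {A : Type*} [AddCommGroup A] [Finite A] {p : ℕ} [Fact p.Prime]

omit [Finite A] in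
theorem prime_dvd_card (hA : ∀ a : A, p • a = 0) [Nontrivial A] : p ∣ Nat.card A := by
  obtain ⟨a, ha⟩ := exists_ne (0 : A)
  have h1 : addOrderOf a = p := addOrderOf_eq_prime (hA a) ha
  rw [← h1]
  exact addOrderOf_dvd_natCard a

/-- `p`-subgroups normalised by an irreducible group are trivial -/
theorem pgroup_trivial (hA : ∀ a : A, p • a = 0) (G P : Subgroup (AddMonoid.End A)ˣ)
    (hirr : ∀ U : AddSubgroup A, (∀ g ∈ G, ∀ u ∈ U, (g : AddMonoid.End A) u ∈ U) → U = ⊥ ∨ U = ⊤)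
    (hnorm : ∀ g ∈ G, ∀ c ∈ P, g * c * g⁻¹ ∈ P) (hP : IsPGroup p P) : P = ⊥ := by
  rcases subsingleton_or_nontrivial A with hs | hn
  · rw [eq_bot_iff]
    intro x _
    rw [Subgroup.mem_bot]
    ext a
    exact Subsingleton.elim _ _
  have hdvd := prime_dvd_card (p := p) hA
  have h0 : (0 : A) ∈ MulAction.fixedPoints P A := by
    intro g
    exact smul_zero g
  obtain ⟨b, hb, hb0⟩ := hP.exists_fixed_point_of_prime_dvd_card_of_fixed_point A hdvd h0
  let F : AddSubgroup A :=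
    { carrier := {v | ∀ g ∈ P, (g : AddMonoid.End A) v = v}
      zero_mem' := fun g _ => map_zero _
      add_mem' := fun {a b} ha hb g hg => by rw [map_add, ha g hg, hb g hg]
      neg_mem' := fun {a} ha g hg => by rw [map_neg, ha g hg] }
  have hF : F = ⊥ ∨ F = ⊤ := by
    apply hirr
    intro g hg u hu c hc
    have h1 : g⁻¹ * c * g⁻¹⁻¹ ∈ P := hnorm g⁻¹ (G.inv_mem hg) c hc
    have h2 := hu _ h1
    rw [inv_inv] at h2
    have h3 : (c * g : (AddMonoid.End A)ˣ) = g * (g⁻¹ * c * g) := by group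
    calc (c : AddMonoid.End A) ((g : AddMonoid.End A) u)
        = ((c * g : (AddMonoid.End A)ˣ) : AddMonoid.End A) u := rfl
      _ = ((g * (g⁻¹ * c * g) : (AddMonoid.End A)ˣ) : AddMonoid.End A) u := by rw [h3]
      _ = (g : AddMonoid.End A) (((g⁻¹ * c * g : (AddMonoid.End A)ˣ) : AddMonoid.End A) u) := rfl
      _ = (g : AddMonoid.End A) u := by rw [h2]
  rcases hF with hF | hF
  · exfalso
    have : b ∈ F := by
      intro g hg
      exact hb ⟨g, hg⟩
    rw [hF, AddSubgroup.mem_bot] at this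
    exact hb0 this.symm
  · rw [eq_bot_iff]
    intro x hx
    rw [Subgroup.mem_bot]
    ext a
    have : a ∈ F := by rw [hF]; trivial
    exact this x hx

end fixed

section ring

variable {R : Type*} [Ring R] {p : ℕ}

theorem two_regular (hp : Odd p) (hR : (p : R) = 0) {x : R} (h : x + x = 0) : x = 0 := by
  obtain ⟨k, hk⟩ := hp
  have h1 : (p : R) * x = 0 := by rw [hR, zero_mul]
  rw [hk] at h1
  push_cast at h1
  have h2 : (2 * (k : R) + 1) * x = k * (x + x) + x := by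
    noncomm_ring
  rw [h2, h, mul_zero, zero_add] at h1
  exact h1

theorem one_add_pow {n : R} (hn : n * n = 0) (k : ℕ) : (1 + n) ^ k = 1 + k * n := by
  induction k with
  | zero => simp
  | succ k ih =>
    rw [pow_succ, ih]
    push_cast
    have : (k : R) * n * n = 0 := by rw [mul_assoc, hn, mul_zero]
    calc (1 + (k : R) * n) * (1 + n) = 1 + ((k : R) + 1) * n + (k : R) * n * n := by noncomm_ring
      _ = _ := by rw [this, add_zero]

theorem unit_pow_eq_one (hR : (p : R) = 0) (g : Rˣ) (hg : ((g : R) - 1) * ((g : R) - 1) = 0) :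
    g ^ p = 1 := by
  ext
  have h := one_add_pow hg p
  rw [hR, zero_mul, add_zero] at h
  have h2 : (1 : R) + ((g : R) - 1) = g := by abel
  rw [h2] at h
  rw [Units.val_pow_eq_pow_val, h, Units.val_one]

theorem inv_quad (g : Rˣ) (hg : ((g : R) - 1) * ((g : R) - 1) = 0) :
    ((g⁻¹ : Rˣ) : R) = 1 - ((g : R) - 1) := by
  have h1 : (g : R) * (1 - ((g : R) - 1)) = 1 := by
    have : (g : R) * (1 - ((g : R) - 1)) = 1 - ((g : R) - 1) * ((g : R) - 1) := by noncomm_ring
    rw [this, hg, sub_zero]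
  exact Units.inv_eq_of_mul_eq_one_right h1 

end ring

section ring2

variable {R : Type*} [Ring R] {p : ℕ}

/-- `r + r⁻¹` commutes with `g` -/
theorem sum_commute (g r : Rˣ) (hg : ((g : R) - 1) * ((g : R) - 1) = 0)
    (hh : (((g * r : Rˣ) : R) - 1) * (((g * r : Rˣ) : R) - 1) = 0) :
    (g : R) * ((r : R) + ((r⁻¹ : Rˣ) : R)) = ((r : R) + ((r⁻¹ : Rˣ) : R)) * g := by
  obtain ⟨h, hhdef⟩ : ∃ h : Rˣ, h = g * r := ⟨_, rfl⟩
  rw [← hhdef] at hh
  have hr : r = g⁻¹ * h := by rw [hhdef]; group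
  have hr' : r⁻¹ = h⁻¹ * g := by rw [hhdef]; group
  rw [hr', hr, Units.val_mul, Units.val_mul, inv_quad g hg, inv_quad h hh]
  obtain ⟨a, ha⟩ : ∃ a : R, a = (g : R) - 1 := ⟨_, rfl⟩
  obtain ⟨b, hb⟩ : ∃ b : R, b = (h : R) - 1 := ⟨_, rfl⟩
  have hg1 : (g : R) = 1 + a := by rw [ha]; abel
  have hh1 : (h : R) = 1 + b := by rw [hb]; abel
  rw [← ha] at hg
  rw [← ha, ← hb, hg1, hh1]
  have e1 : (1 + a) * ((1 - a) * (1 + b) + (1 - b) * (1 + a)) - 
      ((1 - a) * (1 + b) + (1 - b) * (1 + a)) * (1 + a) = (a * a) * (- b) + b * (a * a) := by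
    noncomm_ring
  rw [hg, zero_mul, mul_zero, add_zero] at e1
  exact sub_eq_zero.mp e1

/-- the identity for the commutator -/
theorem zeta_eq (g r z : Rˣ) 
    (hs : (g : R) * ((r : R) + ((r⁻¹ : Rˣ) : R)) = ((r : R) + ((r⁻¹ : Rˣ) : R)) * g)
    (hz : r * (g * r * g⁻¹) = z * ((g * r * g⁻¹) * r)) (hzr : z * r = r * z)
    (hzr' : z * (g * r * g⁻¹) = (g * r * g⁻¹) * z) :
    ((z : R) - 1) * ((z : R) - 1) * ((z : R) + 1) = 0 := by
  obtain ⟨q, hq⟩ : ∃ q : Rˣ, q = g * r * g⁻¹ := ⟨_, rfl⟩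
  rw [← hq] at hz hzr'
  -- s = q + q⁻¹
  have h1 : (r : R) + ((r⁻¹ : Rˣ) : R) = (q : R) + ((q⁻¹ : Rˣ) : R) := by
    have e1 : q⁻¹ = g * r⁻¹ * g⁻¹ := by rw [hq]; group
    rw [e1, hq]
    push_cast
    rw [← add_mul, ← mul_add, hs, mul_assoc, Units.mul_inv, mul_one]
  have h2 : (r : R) * ((q : R) + ((q⁻¹ : Rˣ) : R)) = ((q : R) + ((q⁻¹ : Rˣ) : R)) * r := by
    rw [← h1, mul_add, add_mul, Units.mul_inv, Units.inv_mul]
  -- `r * q⁻¹ = z⁻¹ * q⁻¹ * r`
  have h3 : r * q⁻¹ = z⁻¹ * q⁻¹ * r := by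
    have : r * q * r⁻¹ = z * q := by rw [hz]; group
    have h4 : r * q⁻¹ * r⁻¹ = (z * q)⁻¹ := by rw [← this]; group
    have h5 : (z * q)⁻¹ = z⁻¹ * q⁻¹ := by rw [hzr', mul_inv_rev]
    rw [← h5, ← h4]; group
  have h6 : ((z * q : Rˣ) : R) + ((z⁻¹ * q⁻¹ : Rˣ) : R) = (q : R) + ((q⁻¹ : Rˣ) : R) := by
    have e1 : (r : R) * ((q : R) + ((q⁻¹ : Rˣ) : R)) = 
        (((z * q : Rˣ) : R) + ((z⁻¹ * q⁻¹ : Rˣ) : R)) * r := by
      rw [mul_add, add_mul, ← Units.val_mul, ← Units.val_mul, ← Units.val_mul, ← Units.val_mul,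
        hz, h3, mul_assoc z q r]
    rw [e1] at h2
    exact (Units.mul_left_inj r).mp h2
  -- multiply by `z * q`
  have h7 : ((z * z * (q * q) : Rˣ) : R) + 1 = ((z * (q * q) : Rˣ) : R) + (z : R) := by
    have e1 := congrArg (fun t : R => t * ((z * q : Rˣ) : R)) h6
    simp only [add_mul, ← Units.val_mul] at e1
    have e2 : z * q * (z * q) = z * z * (q * q) := by
      rw [mul_assoc z q, ← mul_assoc q z q, ← hzr']; group
    have e3 : z⁻¹ * q⁻¹ * (z * q) = 1 := by
      rw [hzr']; group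
    have e4 : q * (z * q) = z * (q * q) := by
      rw [← mul_assoc, ← hzr', mul_assoc]
    have e5 : q⁻¹ * (z * q) = z := by
      rw [hzr']; group
    rw [e2, e3, e4, e5] at e1
    simpa using e1
  have h8 : (z : R) * ((z : R) - 1) * ((q : R) * q) = (z : R) - 1 := by
    push_cast at h7
    have e1 : (z : R) * ((z : R) - 1) * ((q : R) * q) - ((z : R) - 1) =
      ((z : R) * z * (q * q) + 1) - ((z : R) * (q * q) + z) := by noncomm_ring
    rw [h7, sub_self] at e1
    exact sub_eq_zero.mp e1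
  have hzrR : (z : R) * r = r * z := by exact_mod_cast congrArg Units.val hzr
  have hzqR : (z : R) * q = q * z := by exact_mod_cast congrArg Units.val hzr'
  have hrq : (r : R) * q = z * (q * r) := by exact_mod_cast congrArg Units.val hz
  have h9 : (z : R) * ((z : R) - 1) * ((z : R) * z * (q * q)) = (z : R) - 1 := by
    have e1 : (r : R) * (q * q) = (z : R) * z * (q * q) * r := by
      calc (r : R) * (q * q) = (r * q) * q := by rw [mul_assoc]
        _ = z * q * (r * q) := by rw [hrq]; simp only [mul_assoc]; rw [hrq]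
        _ = z * (q * z) * q * r := by rw [hrq]; simp only [mul_assoc]
        _ = _ := by rw [← hzqR]; simp only [mul_assoc]
    have e2 : (r : R) * ((z : R) * ((z : R) - 1)) = ((z : R) * ((z : R) - 1)) * r := by
      rw [← mul_assoc, ← hzrR, mul_assoc, mul_sub, ← hzrR, mul_one, mul_assoc, sub_mul, one_mul]
    have e3 : (r : R) * ((z : R) - 1) = ((z : R) - 1) * r := by
      rw [mul_sub, ← hzrR, mul_one, sub_mul, one_mul]
    have e4 : (r : R) * ((z : R) * ((z : R) - 1) * ((q : R) * q)) = (r : R) * ((z : R) - 1) := by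
      rw [h8]
    rw [← mul_assoc, e2, mul_assoc, e1, e3, ← mul_assoc] at e4
    exact (Units.mul_left_inj r).mp e4
  have h10 : (z : R) * ((z : R) - 1) * ((z : R) * z * (q * q)) = 
      (z : R) * z * ((z : R) * ((z : R) - 1) * (q * q)) := by noncomm_ring
  rw [h10, h8] at h9
  calc ((z : R) - 1) * ((z : R) - 1) * ((z : R) + 1) 
      = (z : R) * z * (z - 1) - (z - 1) := by noncomm_ring
    _ = 0 := by rw [h9, sub_self]

/-- if `r` commutes with its conjugates by `g^{±1}`, then `g r - r g` commutes with `r`. -/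
theorem deriv_commute (hp : Odd p) (hR : (p : R) = 0) (g r : Rˣ)
    (hg : ((g : R) - 1) * ((g : R) - 1) = 0)
    (h : r * (g * r * g⁻¹) = (g * r * g⁻¹) * r) :
    (r : R) * ((g : R) * r - r * g) = ((g : R) * r - r * g) * r := by
  have h' : r * (g⁻¹ * r * g) = (g⁻¹ * r * g) * r := by
    have e1 : r * (g⁻¹ * r * g) = g⁻¹ * ((g * r * g⁻¹) * r) * g := by group
    rw [e1, ← h]; group
  have hR1 : (r : R) * ((g : R) * r * ((g⁻¹ : Rˣ) : R)) = ((g : R) * r * ((g⁻¹ : Rˣ) : R)) * r := by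
    exact_mod_cast congrArg Units.val h
  have hR2 : (r : R) * (((g⁻¹ : Rˣ) : R) * r * (g : R)) = (((g⁻¹ : Rˣ) : R) * r * (g : R)) * r := by
    exact_mod_cast congrArg Units.val h'
  rw [inv_quad g hg] at hR1 hR2
  obtain ⟨a, ha⟩ : ∃ a : R, a = (g : R) - 1 := ⟨_, rfl⟩
  have hg1 : (g : R) = 1 + a := by rw [ha]; abel
  rw [← ha, hg1] at hR1 hR2
  rw [hg1]
  have hd : (r : R) * ((1 + a) * r * (1 - a)) - r * ((1 - a) * r * (1 + a)) =
      (1 + a) * r * (1 - a) * r - (1 - a) * r * (1 + a) * r := by rw [hR1, hR2]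
  have : ((r : R) * ((1 + a) * r - r * (1 + a)) - ((1 + a) * r - r * (1 + a)) * r) +
      ((r : R) * ((1 + a) * r - r * (1 + a)) - ((1 + a) * r - r * (1 + a)) * r) = 0 := by
    have e1 : ((r : R) * ((1 + a) * r - r * (1 + a)) - ((1 + a) * r - r * (1 + a)) * r) +
      ((r : R) * ((1 + a) * r - r * (1 + a)) - ((1 + a) * r - r * (1 + a)) * r) =
      ((r : R) * ((1 + a) * r * (1 - a)) - (r : R) * ((1 - a) * r * (1 + a))) -
      ((1 + a) * r * (1 - a) * r - (1 - a) * r * (1 + a) * r) := by noncomm_ring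
    rw [e1, hd, sub_self]
  exact sub_eq_zero.mp (two_regular hp hR this)

theorem deriv_pow (g r : R) (h : r * (g * r - r * g) = (g * r - r * g) * r) (n : ℕ) :
    g * r ^ (n + 1) - r ^ (n + 1) * g = ((n + 1 : ℕ) : R) * (r ^ n * (g * r - r * g)) := by
  induction n with
  | zero => simp
  | succ n ih =>
    have e1 : g * r ^ (n + 1 + 1) - r ^ (n + 1 + 1) * g = 
      (g * r ^ (n + 1) - r ^ (n + 1) * g) * r + r ^ (n + 1) * (g * r - r * g) := by
      rw [pow_succ r (n + 1)]; noncomm_ring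
    rw [e1, ih]
    have e2 : ((n + 1 : ℕ) : R) * (r ^ n * (g * r - r * g)) * r = 
      ((n + 1 : ℕ) : R) * (r ^ (n + 1) * (g * r - r * g)) := by
      rw [mul_assoc, mul_assoc (r ^ n), ← h, pow_succ, mul_assoc]
    rw [e2, Nat.cast_succ (n + 1), add_mul _ (1 : R), one_mul]

/-- `g` commutes with `r` when `r` has order prime to `p`. -/
theorem commute_of_deriv (hR : (p : R) = 0) (g r : Rˣ) {n : ℕ} (hn : n.Coprime p)
    (hn0 : n ≠ 0) (hr : r ^ n = 1)
    (h : (r : R) * ((g : R) * r - r * g) = ((g : R) * r - r * g) * r) : g * r = r * g := by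
  obtain ⟨m, rfl⟩ : ∃ m, n = m + 1 := ⟨n - 1, by omega⟩
  have h1 := deriv_pow (g : R) (r : R) h m
  have h2 : (r : R) ^ (m + 1) = 1 := by
    have := congrArg Units.val hr
    simpa using this
  rw [h2, mul_one, one_mul, sub_self] at h1
  -- `m + 1` is invertible
  have h3 : ∃ k : ℤ, (k : R) * ((m + 1 : ℕ) : R) = 1 := by
    refine ⟨Nat.gcdA (m + 1) p, ?_⟩
    have e := Nat.gcd_eq_gcd_ab (m + 1) p
    have hn' : Nat.gcd (m + 1) p = 1 := hn
    rw [hn'] at e
    have e2 : ((1 : ℕ) : R) = ((m + 1 : ℕ) : R) * (Nat.gcdA (m + 1) p : R) +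
        (p : R) * (Nat.gcdB (m + 1) p : R) := by
      exact_mod_cast congrArg (fun t : ℤ => (t : R)) e
    rw [hR, zero_mul, add_zero, Nat.cast_one] at e2
    rw [e2]
    exact (Int.cast_commute _ _).eq
  obtain ⟨k, hk⟩ := h3
  have h4 : (r : R) ^ m * ((g : R) * r - r * g) = 0 := by
    calc (r : R) ^ m * ((g : R) * r - r * g) 
        = (k : R) * ((m + 1 : ℕ) : R) * ((r : R) ^ m * ((g : R) * r - r * g)) := by
          rw [hk, one_mul]
      _ = 0 := by rw [mul_assoc, ← h1, mul_zero]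
  rw [← Units.val_pow_eq_pow_val] at h4
  have h5 : (g : R) * r - r * g = 0 := by
    have := (Units.mul_right_inj (r ^ m)).mp (h4.trans (mul_zero _).symm)
    exact this
  ext
  push_cast
  exact sub_eq_zero.mp h5

end ring2

theorem drop_factor {R : Type*} [Ring R] {p : ℕ} (hp : Odd p) (hR : (p : R) = 0) (z : Rˣ)
    {m : ℕ} (hm : Odd m) (hzm : z ^ m = 1)
    (h : ((z : R) - 1) * ((z : R) - 1) * ((z : R) + 1) = 0) :
    ((z : R) - 1) * ((z : R) - 1) = 0 := by
  obtain ⟨y, hy⟩ : ∃ y, y = ((z : R) - 1) * ((z : R) - 1) := ⟨_, rfl⟩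
  rw [← hy] at h ⊢
  have h1 : y * z = - y := by
    rw [mul_add, mul_one] at h
    exact eq_neg_of_add_eq_zero_left h
  have h2 : ∀ k : ℕ, y * (z : R) ^ (2 * k) = y := by
    intro k
    induction k with
    | zero => simp
    | succ k ih =>
      rw [Nat.mul_succ, pow_add, ← mul_assoc, ih, pow_two, ← mul_assoc, h1, neg_mul, h1, neg_neg]
  obtain ⟨k, rfl⟩ := hm
  have h3 : (z : R) ^ (2 * k + 1) = 1 := by
    have := congrArg Units.val hzm
    simpa using this
  have h4 : y * (z : R) ^ (2 * k + 1) = - y := by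
    rw [pow_succ, ← mul_assoc, h2, h1]
  rw [h3, mul_one] at h4
  apply two_regular hp hR
  nth_rewrite 1 [h4]
  exact neg_add_cancel y

section main

variable {A : Type*} [AddCommGroup A] [Finite A] {p : ℕ} [Fact p.Prime]

/-- elements of order `p` in the centre of a normalised subgroup are trivial -/
theorem center_elem_trivial (hA : ∀ a : A, p • a = 0) (G B : Subgroup (AddMonoid.End A)ˣ)
    (hirr : ∀ U : AddSubgroup A, (∀ g ∈ G, ∀ u ∈ U, (g : AddMonoid.End A) u ∈ U) → U = ⊥ ∨ U = ⊤)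
    (hnorm : ∀ g ∈ G, ∀ c ∈ B, g * c * g⁻¹ ∈ B) {x : (AddMonoid.End A)ˣ} (hx : x ∈ B)
    (hc : ∀ y ∈ B, x * y = y * x) (hxp : x ^ p = 1) : x = 1 := by
  let P : Subgroup (AddMonoid.End A)ˣ :=
    { carrier := {x | x ∈ B ∧ (∀ y ∈ B, x * y = y * x) ∧ x ^ p = 1}
      one_mem' := ⟨B.one_mem, fun y _ => by simp, one_pow _⟩
      mul_mem' := fun {a b} ha hb => ⟨B.mul_mem ha.1 hb.1, fun y hy => by
          rw [mul_assoc, hb.2.1 y hy, ← mul_assoc, ha.2.1 y hy, mul_assoc], by
          have : Commute a b := ha.2.1 b hb.1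
          rw [this.mul_pow, ha.2.2, hb.2.2, one_mul]⟩
      inv_mem' := fun {a} ha => ⟨B.inv_mem ha.1, fun y hy => by
          have : Commute a y := ha.2.1 y hy
          exact this.inv_left.eq, by rw [inv_pow, ha.2.2, inv_one]⟩ }
  have hP : P = ⊥ := by
    apply pgroup_trivial hA G P hirr
    · intro g hg c hc
      refine ⟨hnorm g hg c hc.1, ?_, ?_⟩
      · intro y hy
        have h1 : g⁻¹ * y * g⁻¹⁻¹ ∈ B := hnorm g⁻¹ (G.inv_mem hg) y hy
        rw [inv_inv] at h1
        have h2 := hc.2.1 _ h1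
        calc g * c * g⁻¹ * y = g * (c * (g⁻¹ * y * g)) * g⁻¹ := by group
          _ = g * ((g⁻¹ * y * g) * c) * g⁻¹ := by rw [h2]
          _ = y * (g * c * g⁻¹) := by group
      · have : (g * c * g⁻¹) ^ p = g * c ^ p * g⁻¹ := conj_pow
        rw [this, hc.2.2]; group
    · intro x
      refine ⟨1, ?_⟩
      have := x.2.2.2
      apply Subtype.ext
      rw [pow_one]
      exact this
  have : x ∈ P := ⟨hx, hc, hxp⟩
  rw [hP] at this
  exact (Subgroup.mem_bot).mp this

/-- class two normalised subgroups have no elements of order `p` -/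
theorem class_two_elem_trivial (hA : ∀ a : A, p • a = 0) (G B : Subgroup (AddMonoid.End A)ˣ)
    (hirr : ∀ U : AddSubgroup A, (∀ g ∈ G, ∀ u ∈ U, (g : AddMonoid.End A) u ∈ U) → U = ⊥ ∨ U = ⊤)
    (hnorm : ∀ g ∈ G, ∀ c ∈ B, g * c * g⁻¹ ∈ B)
    (hB : ∀ x ∈ B, ∀ y ∈ B, ∀ w ∈ B, (x * y * (y * x)⁻¹) * w = w * (x * y * (y * x)⁻¹))
    {x : (AddMonoid.End A)ˣ} (hx : x ∈ B) (hxp : x ^ p = 1) : x = 1 := by
  refine center_elem_trivial hA G B hirr hnorm hx ?_ hxp
  intro y hy
  have hz : x * y = (x * y * (y * x)⁻¹) * (y * x) := by group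
  have hzB : x * y * (y * x)⁻¹ ∈ B :=
    B.mul_mem (B.mul_mem hx hy) (B.inv_mem (B.mul_mem hy hx))
  have h1 : (x * y * (y * x)⁻¹) ^ p = 1 := by
    apply comm_pow_eq_one hz (hB x hx y hy x hx)
    rw [hxp, one_mul, mul_one]
  have h2 := center_elem_trivial hA G B hirr hnorm hzB (hB x hx y hy) h1
  rw [h2, one_mul] at hz
  exact hz

/-- in a class two normalised subgroup all orders are prime to `p` -/
theorem class_two_coprime (hA : ∀ a : A, p • a = 0) (G B : Subgroup (AddMonoid.End A)ˣ)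
    (hirr : ∀ U : AddSubgroup A, (∀ g ∈ G, ∀ u ∈ U, (g : AddMonoid.End A) u ∈ U) → U = ⊥ ∨ U = ⊤)
    (hnorm : ∀ g ∈ G, ∀ c ∈ B, g * c * g⁻¹ ∈ B)
    (hB : ∀ x ∈ B, ∀ y ∈ B, ∀ w ∈ B, (x * y * (y * x)⁻¹) * w = w * (x * y * (y * x)⁻¹))
    {x : (AddMonoid.End A)ˣ} (hx : x ∈ B) :
    ∃ n : ℕ, n.Coprime p ∧ n ≠ 0 ∧ x ^ n = 1 := by
  have : Finite (AddMonoid.End A) := by
    have : Function.Injective (fun f : AddMonoid.End A => (f : A → A)) := DFunLike.coe_injective
    exact Finite.of_injective _ this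
  have : Finite (AddMonoid.End A)ˣ := inferInstance
  refine ⟨orderOf x, ?_, (orderOf_pos x).ne', pow_orderOf_eq_one x⟩
  have hp : p.Prime := Fact.out
  rw [Nat.coprime_comm, hp.coprime_iff_not_dvd]
  intro hd
  obtain ⟨k, hk⟩ := hd
  have h1 : (x ^ k) ^ p = 1 := by rw [← pow_mul, mul_comm, ← hk, pow_orderOf_eq_one]
  have h2 := class_two_elem_trivial hA G B hirr hnorm hB (B.pow_mem hx k) h1
  have h3 := orderOf_dvd_of_pow_eq_one h2
  have hk0 : 0 < k := by
    rcases Nat.eq_zero_or_pos k with h0 | h0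
    · rw [h0, mul_zero] at hk
      exact absurd hk (orderOf_pos x).ne'
    · exact h0
  have h4 := Nat.le_of_dvd hk0 h3
  rw [hk] at h4
  have := hp.two_le
  nlinarith

/-- the key step -/
theorem key_step (hA : ∀ a : A, p • a = 0) (hp2 : p ≠ 2) (G C B : Subgroup (AddMonoid.End A)ˣ)
    (hirr : ∀ U : AddSubgroup A, (∀ g ∈ G, ∀ u ∈ U, (g : AddMonoid.End A) u ∈ U) → U = ⊥ ∨ U = ⊤)
    (hC : C ≤ G)
    (hodd : ∀ c ∈ C, ∃ m : ℕ, Odd m ∧ ∀ d ∈ C, Commute (c ^ m) d)
    (hBC : B ≤ C)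
    (hnorm : ∀ g ∈ G, ∀ c ∈ B, g * c * g⁻¹ ∈ B)
    (hB : ∀ x ∈ B, ∀ y ∈ B, ∀ w ∈ B, (x * y * (y * x)⁻¹) * w = w * (x * y * (y * x)⁻¹))
    (g : (AddMonoid.End A)ˣ) (hg : g ∈ C)
    (hquad : ((g : AddMonoid.End A) - 1) * ((g : AddMonoid.End A) - 1) = 0)
    (x : (AddMonoid.End A)ˣ) (hx : x ∈ B) : g * x = x * g := by
  have hp : p.Prime := Fact.out
  have hpo : Odd p := hp.odd_of_ne_two hp2
  have hR : ((p : ℕ) : AddMonoid.End A) = 0 := by
    ext a
    rw [← nsmul_one p]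
    simpa using hA a
  obtain ⟨r, hr⟩ : ∃ r, r = g⁻¹ * (x⁻¹ * g * x) := ⟨_, rfl⟩
  have hrB : r ∈ B := by
    have h1 : g⁻¹ * x⁻¹ * g⁻¹⁻¹ ∈ B := hnorm g⁻¹ (G.inv_mem (hC hg)) _ (B.inv_mem hx)
    have h2 : r = (g⁻¹ * x⁻¹ * g⁻¹⁻¹) * x := by rw [hr]; group
    rw [h2]; exact B.mul_mem h1 hx
  have hgr : g * r = x⁻¹ * g * x := by rw [hr]; group
  have hh : (((g * r : (AddMonoid.End A)ˣ) : AddMonoid.End A) - 1) *
      (((g * r : (AddMonoid.End A)ˣ) : AddMonoid.End A) - 1) = 0 := by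
    rw [hgr]
    push_cast
    have e1 : (((x⁻¹ : (AddMonoid.End A)ˣ) : AddMonoid.End A) * g * x - 1) =
      ((x⁻¹ : (AddMonoid.End A)ˣ) : AddMonoid.End A) * ((g : AddMonoid.End A) - 1) * x := by
      rw [mul_sub, sub_mul, mul_one, Units.inv_mul]
    rw [e1]
    have e2 : ((x⁻¹ : (AddMonoid.End A)ˣ) : AddMonoid.End A) * ((g : AddMonoid.End A) - 1) * x *
      (((x⁻¹ : (AddMonoid.End A)ˣ) : AddMonoid.End A) * ((g : AddMonoid.End A) - 1) * x) =
      ((x⁻¹ : (AddMonoid.End A)ˣ) : AddMonoid.End A) * (((g : AddMonoid.End A) - 1) *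
        ((x : AddMonoid.End A) * ((x⁻¹ : (AddMonoid.End A)ˣ) : AddMonoid.End A)) *
        ((g : AddMonoid.End A) - 1)) * x := by simp only [mul_assoc]
    rw [e2, Units.mul_inv, mul_one, hquad, mul_zero, zero_mul]
  have hs := sum_commute g r hquad hh
  have hqB : g * r * g⁻¹ ∈ B := hnorm g (hC hg) r hrB
  obtain ⟨z, hz⟩ : ∃ z, z = r * (g * r * g⁻¹) * ((g * r * g⁻¹) * r)⁻¹ := ⟨_, rfl⟩
  have hzB : z ∈ B := by
    rw [hz]
    exact B.mul_mem (B.mul_mem hrB hqB) (B.inv_mem (B.mul_mem hqB hrB))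
  have hz1 : r * (g * r * g⁻¹) = z * ((g * r * g⁻¹) * r) := by rw [hz]; group
  have hzr : z * r = r * z := by rw [hz]; exact hB r hrB _ hqB r hrB
  have hzq : z * (g * r * g⁻¹) = (g * r * g⁻¹) * z := by rw [hz]; exact hB r hrB _ hqB _ hqB
  have hzeta := zeta_eq g r z hs hz1 hzr hzq
  -- `z` has odd order
  have hz1' : z = 1 := by
    obtain ⟨m, hm, hmc⟩ := hodd r (hBC hrB)
    have hzm : z ^ m = 1 := comm_pow_eq_one hz1 hzr (hmc _ (hBC hqB)).eq
    have h1 : ((z : AddMonoid.End A) - 1) * ((z : AddMonoid.End A) - 1) = 0 :=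
      drop_factor hpo hR z hm hzm hzeta
    have h2 := unit_pow_eq_one hR z h1
    exact class_two_elem_trivial hA G B hirr hnorm hB hzB h2
  rw [hz1', one_mul] at hz1
  have hd := deriv_commute hpo hR g r hquad hz1
  obtain ⟨n, hnc, hn0, hrn⟩ := class_two_coprime hA G B hirr hnorm hB hrB
  have hgrc := commute_of_deriv hR g r hnc hn0 hrn hd
  have hrp : r ^ p = 1 := by
    have h1 := unit_pow_eq_one hR g hquad
    have h2 := unit_pow_eq_one hR (g * r) hh
    have h3 : Commute g r := hgrc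
    rw [h3.mul_pow, h1, one_mul] at h2
    exact h2
  have hr1 := class_two_elem_trivial hA G B hirr hnorm hB hrB hrp
  rw [hr1, mul_one] at hgr
  calc g * x = x * (x⁻¹ * g * x) := by group
    _ = x * g := by rw [← hgr]

/-- the derived series inside the ambient group -/
def dser {U : Type*} [Group U] (K : Subgroup U) : ℕ → Subgroup U
  | 0 => K
  | n + 1 => ⁅dser K n, dser K n⁆

theorem dser_le {U : Type*} [Group U] (K C : Subgroup U) (h : K ≤ C) (n : ℕ) :
    dser K n ≤ (derivedSeries C n).map C.subtype := by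
  induction n with
  | zero =>
    rw [derivedSeries_zero, ← MonoidHom.range_eq_map, Subgroup.range_subtype]
    exact h
  | succ n ih =>
    rw [dser, derivedSeries_succ, Subgroup.map_commutator]
    exact Subgroup.commutator_mono ih ih

theorem dser_le_self {U : Type*} [Group U] (K : Subgroup U) (n : ℕ) : dser K n ≤ K := by
  induction n with
  | zero => exact le_rfl
  | succ n ih =>
    rw [dser]
    refine (Subgroup.commutator_mono ih ih).trans ?_
    rw [Subgroup.commutator_le]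
    intro a ha b hb
    exact K.mul_mem (K.mul_mem (K.mul_mem ha hb) (K.inv_mem ha)) (K.inv_mem hb)

theorem dser_norm {U : Type*} [Group U] (K : Subgroup U) (g : U)
    (h : ∀ c ∈ K, g * c * g⁻¹ ∈ K) (n : ℕ) : ∀ c ∈ dser K n, g * c * g⁻¹ ∈ dser K n := by
  induction n with
  | zero => exact h
  | succ n ih =>
    have h1 : (dser K n).map (MulAut.conj g).toMonoidHom ≤ dser K n := by
      rintro _ ⟨c, hc, rfl⟩
      exact ih c hc
    have h2 : (dser K (n + 1)).map (MulAut.conj g).toMonoidHom ≤ dser K (n + 1) := by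
      rw [dser, Subgroup.map_commutator]
      exact Subgroup.commutator_mono h1 h1
    intro c hc
    exact h2 ⟨c, hc, rfl⟩

/-- **The linear group lemma.** -/
theorem quad_lemma (hp2 : p ≠ 2) (hA : ∀ a : A, p • a = 0)
    (G C : Subgroup (AddMonoid.End A)ˣ)
    (hirr : ∀ U : AddSubgroup A, (∀ g ∈ G, ∀ u ∈ U, (g : AddMonoid.End A) u ∈ U) → U = ⊥ ∨ U = ⊤)
    (hC : C ≤ G) (hnorm : ∀ g ∈ G, ∀ c ∈ C, g * c * g⁻¹ ∈ C) (hsolv : Group.IsSolvable C)
    (hodd : ∀ c ∈ C, ∃ m : ℕ, Odd m ∧ ∀ d ∈ C, Commute (c ^ m) d) (g : (AddMonoid.End A)ˣ)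
    (hg : g ∈ C) (hquad : ((g : AddMonoid.End A) - 1) * ((g : AddMonoid.End A) - 1) = 0) :
    g = 1 := by
  have hR : ((p : ℕ) : AddMonoid.End A) = 0 := by
    ext a
    rw [← nsmul_one p]
    simpa using hA a
  let S : Set (AddMonoid.End A)ˣ :=
    {g | g ∈ C ∧ ((g : AddMonoid.End A) - 1) * ((g : AddMonoid.End A) - 1) = 0}
  let K : Subgroup (AddMonoid.End A)ˣ := Subgroup.closure S
  have hKC : K ≤ C := (Subgroup.closure_le _).mpr (fun x hx => hx.1)
  have hKn : ∀ g ∈ G, ∀ c ∈ K, g * c * g⁻¹ ∈ K := by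
    intro g hg c hc
    have h1 : K.map (MulAut.conj g).toMonoidHom ≤ K := by
      rw [MonoidHom.map_closure, Subgroup.closure_le]
      rintro _ ⟨c, hc, rfl⟩
      apply Subgroup.subset_closure
      refine ⟨hnorm g hg c hc.1, ?_⟩
      have e1 : (((g * c * g⁻¹ : (AddMonoid.End A)ˣ) : AddMonoid.End A) - 1) =
          (g : AddMonoid.End A) * ((c : AddMonoid.End A) - 1) * ((g⁻¹ : (AddMonoid.End A)ˣ) :
            AddMonoid.End A) := by
        push_cast
        rw [mul_sub, sub_mul, mul_one, Units.mul_inv]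
      have e0 : ((((MulAut.conj g).toMonoidHom c : (AddMonoid.End A)ˣ) : AddMonoid.End A) - 1) =
        (((g * c * g⁻¹ : (AddMonoid.End A)ˣ) : AddMonoid.End A) - 1) := rfl
      rw [e0, e1]
      have e2 : (g : AddMonoid.End A) * ((c : AddMonoid.End A) - 1) * ((g⁻¹ : (AddMonoid.End A)ˣ) :
            AddMonoid.End A) * ((g : AddMonoid.End A) * ((c : AddMonoid.End A) - 1) *
            ((g⁻¹ : (AddMonoid.End A)ˣ) : AddMonoid.End A)) = (g : AddMonoid.End A) *
            (((c : AddMonoid.End A) - 1) * (((g⁻¹ : (AddMonoid.End A)ˣ) : AddMonoid.End A) *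
            (g : AddMonoid.End A)) * ((c : AddMonoid.End A) - 1)) *
            ((g⁻¹ : (AddMonoid.End A)ˣ) : AddMonoid.End A) := by simp only [mul_assoc]
      rw [e2, Units.inv_mul, mul_one, hc.2, mul_zero, zero_mul]
    exact h1 ⟨c, hc, rfl⟩
  -- the derived series reaches the centre
  have hex : ∃ n, dser K n ≤ Subgroup.centralizer (K : Set (AddMonoid.End A)ˣ) := by
    obtain ⟨n, hn⟩ := hsolv.solvable
    refine ⟨n, ?_⟩
    have := dser_le K C hKC n
    rw [hn, Subgroup.map_bot] at this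
    exact this.trans bot_le
  have hstep : ∀ n, dser K (n + 1) ≤ Subgroup.centralizer (K : Set (AddMonoid.End A)ˣ) →
      dser K n ≤ Subgroup.centralizer (K : Set (AddMonoid.End A)ˣ) := by
    intro n hn x hx
    have hBK := dser_le_self K n
    have hBn : ∀ g ∈ G, ∀ c ∈ dser K n, g * c * g⁻¹ ∈ dser K n := 
      fun g hg => dser_norm K g (hKn g hg) n
    have hcomm : ∀ x ∈ dser K n, ∀ y ∈ dser K n, ∀ w ∈ K,
        (x * y * (y * x)⁻¹) * w = w * (x * y * (y * x)⁻¹) := by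
      intro x hx y hy w hw
      have h1 : x * y * (y * x)⁻¹ ∈ dser K (n + 1) := by
        have h2 := Subgroup.commutator_mem_commutator hx hy
        rw [commutatorElement_def] at h2
        have : x * y * (y * x)⁻¹ = x * y * x⁻¹ * y⁻¹ := by group
        rw [this]
        exact h2
      exact ((Subgroup.mem_centralizer_iff.mp (hn h1)) w hw).symm
    rw [Subgroup.mem_centralizer_iff]
    intro y hy
    induction hy using Subgroup.closure_induction with
    | mem y hy =>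
      exact key_step hA hp2 G C (dser K n) hirr hC hodd (hBK.trans hKC) hBn
        (fun x hx y hy w hw => hcomm x hx y hy w (hBK hw)) y hy.1
        hy.2 x hx
    | one => simp
    | mul a b _ _ ha hb => rw [mul_assoc, hb, ← mul_assoc, ha, mul_assoc]
    | inv a _ ha =>
      have : Commute a x := ha
      exact this.inv_left.eq
  have h0 : dser K 0 ≤ Subgroup.centralizer (K : Set (AddMonoid.End A)ˣ) := by
    obtain ⟨n, hn⟩ := hex
    induction n with
    | zero => exact hn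
    | succ n ih => exact ih (hstep n hn)
  have hgK : g ∈ K := Subgroup.subset_closure ⟨hg, hquad⟩
  refine center_elem_trivial hA G K hirr hKn hgK ?_ (unit_pow_eq_one hR g hquad)
  intro y hy
  exact ((Subgroup.mem_centralizer_iff.mp (h0 hgK)) y hy).symm

end main

end OddAuto34
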