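import Pool.Agent.OddAuto34.Ident
import Pool.Agent.OddAuto34.Quad

/-!
# The inductive step
-/

namespace Pool.Agent.OddAuto34

universe u

variable {Q : Type u} [MulOneClass Q] [IsLoop Q]

variable (Q) in
/-- the group generated by all `M_{x,y}` -/
def CC : Subgroup (Equiv.Perm Q) :=
  Subgroup.closure (Set.range fun z : Q × Q => MM z.1 z.2)

lemma CC_le_Inn : CC Q ≤ Inn Q := by
  unfold CC
  rw [Subgroup.closure_le]
  rintro _ ⟨z, rfl⟩
  exact MM_mem _ _

lemma MM_mem_CC (x y : Q) : MM x y ∈ CC Q := Subgroup.subset_closure ⟨(x, y), rfl⟩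

variable (Q) in
/-- the property proved by induction -/
def PP : Prop := Group.IsSolvable (CC Q) ∧ ∃ k, Odd k ∧ ∀ g ∈ CC Q, g ^ k = 1

lemma CC_normal (hQ : IsAutomorphic Q) {h k : Equiv.Perm Q} (hh : h ∈ Inn Q) (hk : k ∈ CC Q) :
    h * k * h⁻¹ ∈ CC Q := by
  induction hk using Subgroup.closure_induction with
  | mem x hx =>
    obtain ⟨z, rfl⟩ := hx
    change h * MM z.1 z.2 * h⁻¹ ∈ CC Q
    rw [conj_MM hQ hh]
    exact MM_mem_CC _ _
  | one => simp
  | mul x y _ _ hx hy =>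
    have : h * (x * y) * h⁻¹ = (h * x * h⁻¹) * (h * y * h⁻¹) := by group
    rw [this]; exact mul_mem hx hy
  | inv x _ hx =>
    have : h * x⁻¹ * h⁻¹ = (h * x * h⁻¹)⁻¹ := by group
    rw [this]; exact inv_mem hx

section ind

variable [Finite Q] (c : Con Q)

/-- the action of the multiplication group on a quotient -/
noncomputable def ind : Mlt Q →* Equiv.Perm c.Quotient where
  toFun g :=
    { toFun := Quotient.map' g.1 (con_Mlt c g.2)
      invFun := Quotient.map' (g.1⁻¹ : Equiv.Perm Q) (con_Mlt c (inv_mem g.2))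
      left_inv := by
        intro x
        induction x using Con.induction_on with
        | H x =>
          change (((g.1⁻¹ (g.1 x)) : Q) : c.Quotient) = x
          simp
      right_inv := by
        intro x
        induction x using Con.induction_on with
        | H x =>
          change (((g.1 (g.1⁻¹ x)) : Q) : c.Quotient) = x
          simp }
  map_one' := by
    ext x
    induction x using Con.induction_on with
    | H x => rfl
  map_mul' := by
    intro g h
    ext x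
    induction x using Con.induction_on with
    | H x => rfl

lemma ind_apply (g : Mlt Q) (x : Q) : ind c g (x : c.Quotient) = ((g.1 x : Q) : c.Quotient) := rfl

lemma ind_MM (x y : Q) :
    ind c ⟨MM x y, (MM_mem x y).1⟩ = MM (x : c.Quotient) (y : c.Quotient) := by
  ext z
  induction z using Con.induction_on with
  | H z =>
    rw [ind_apply]
    apply lcancel (a := (x : c.Quotient))
    apply rcancel (a := (y : c.Quotient))
    rw [MM_spec, ← Con.coe_mul, ← Con.coe_mul, ← Con.coe_mul, ← Con.coe_mul, MM_spec]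

lemma ind_mem {g : Equiv.Perm Q} (hg : g ∈ CC Q) :
    ind c ⟨g, (CC_le_Inn hg).1⟩ ∈ CC c.Quotient := by
  have key : ∀ g, ∀ hg : g ∈ CC Q, ∃ h : g ∈ Mlt Q, ind c ⟨g, h⟩ ∈ CC c.Quotient := by
    intro g hg
    induction hg using Subgroup.closure_induction with
    | mem x hx =>
      obtain ⟨z, rfl⟩ := hx
      exact ⟨(MM_mem _ _).1, by rw [ind_MM]; exact MM_mem_CC _ _⟩
    | one => exact ⟨one_mem _, by
        have : (⟨1, one_mem _⟩ : Mlt Q) = 1 := rfl
        rw [this, map_one]; exact one_mem _⟩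
    | mul x y _ _ hx hy =>
      obtain ⟨hx1, hx2⟩ := hx
      obtain ⟨hy1, hy2⟩ := hy
      refine ⟨mul_mem hx1 hy1, ?_⟩
      have : (⟨x * y, mul_mem hx1 hy1⟩ : Mlt Q) = ⟨x, hx1⟩ * ⟨y, hy1⟩ := rfl
      rw [this, map_mul]; exact mul_mem hx2 hy2
    | inv x _ hx =>
      obtain ⟨hx1, hx2⟩ := hx
      refine ⟨inv_mem hx1, ?_⟩
      have : (⟨x⁻¹, inv_mem hx1⟩ : Mlt Q) = ⟨x, hx1⟩⁻¹ := rfl
      rw [this, map_inv]; exact inv_mem hx2
  obtain ⟨_, h⟩ := key g hg
  exact h

/-- the induced homomorphism between the groups generated by the `M_{x,y}` -/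
noncomputable def chi : CC Q →* CC c.Quotient :=
  ((ind c).comp (Subgroup.inclusion (fun _ hg => (CC_le_Inn hg).1 : CC Q ≤ Mlt Q))).codRestrict
    (CC c.Quotient) (fun g => ind_mem c g.2)

lemma chi_ker {g : CC Q} (hg : chi c g = 1) (x : Q) : c (g.1 x) x := by
  have h1 : ind c ⟨g.1, (CC_le_Inn g.2).1⟩ = 1 := congrArg Subtype.val hg
  have h2 := ind_apply c ⟨g.1, (CC_le_Inn g.2).1⟩ x
  rw [h1] at h2
  exact c.eq.1 h2.symm

end ind

namespace Emb

variable {A : Type u} [AddCommGroup A] (E : Emb Q A) [Finite Q]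
variable {p : ℕ} [Fact p.Prime] [Finite A] [Nontrivial A]
  (hp : ∀ a : A, p • a = 0) (hQ : IsAutomorphic Q)

omit [Finite Q] [Finite A] [Nontrivial A] in
lemma irr_rho (U : AddSubgroup A)
    (hU : ∀ g ∈ (E.rhoU hQ).range, ∀ u ∈ U, (g : AddMonoid.End A) u ∈ U) :
    U = ⊥ ∨ U = ⊤ := by
  have hN : NSub (E.i '' (U : Set A)) := by
    refine ⟨⟨0, U.zero_mem, E.i_zero⟩, ?_, ?_⟩
    · rintro _ ⟨a, ha, rfl⟩ _ ⟨b, hb, rfl⟩
      exact ⟨a + b, U.add_mem ha hb, E.i_add a b⟩
    · rintro h hh _ ⟨a, ha, rfl⟩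
      refine ⟨(E.rhoU hQ ⟨h, hh⟩ : AddMonoid.End A) a, hU _ ⟨_, rfl⟩ a ha, ?_⟩
      exact E.i_rho hQ ⟨h, hh⟩ a
  rcases E.irr _ hN (Set.image_subset_range _ _) with h | h
  · left
    rw [AddSubgroup.eq_bot_iff_forall]
    intro a ha
    have h1 : E.i a ∈ E.i '' (U : Set A) := ⟨a, ha, rfl⟩
    rw [h] at h1
    apply E.inj
    rw [E.i_zero]; exact h1
  · right
    rw [AddSubgroup.eq_top_iff']
    intro a
    have h1 : E.i a ∈ E.i '' (U : Set A) := by rw [h]; exact ⟨a, rfl⟩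
    obtain ⟨b, hb, hab⟩ := h1
    rw [← E.inj hab]; exact hb

/-- restriction of `CC Q` to `A` -/
noncomputable def th : CC Q →* (AddMonoid.End A)ˣ :=
  (E.rhoU hQ).comp (Subgroup.inclusion CC_le_Inn)

include hp

lemma ker_commute {g : CC Q} (hg : chi E.c g = 1) (d : CC Q) :
    Commute (E.th hQ g) (E.th hQ d) := by
  have hN : g.1 ∈ E.N := E.mem_N_of_quot (CC_le_Inn g.2).1 (fun x => chi_ker E.c hg x)
  have h := E.N_commute hp hQ hN (CC_le_Inn g.2) (CC_le_Inn d.2)
  ext1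
  exact h

lemma th_solvable (hK : Group.IsSolvable (CC E.c.Quotient)) :
    Group.IsSolvable (E.th hQ).range := by
  obtain ⟨n, hn⟩ := hK.solvable
  set f := (E.th hQ).rangeRestrict with hf
  have hsurj : Function.Surjective f := (E.th hQ).rangeRestrict_surjective
  have h1 : derivedSeries (CC Q) n ≤ (chi E.c).ker := by
    have h2 := map_derivedSeries_le_derivedSeries (chi E.c) n
    rw [hn] at h2
    rw [← MonoidHom.comap_bot, ← Subgroup.map_le_iff_le_comap]
    exact h2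
  have h3 := map_derivedSeries_eq hsurj n
  refine ⟨n + 1, ?_⟩
  rw [derivedSeries_succ, ← h3, Subgroup.commutator_eq_bot_iff_le_centralizer]
  rintro _ ⟨g, hg, rfl⟩
  rw [Subgroup.mem_centralizer_iff]
  rintro _ ⟨d, hd, rfl⟩
  have h4 := E.ker_commute hp hQ (h1 hg) d
  ext1
  exact h4.eq.symm

omit hp [Finite Q] [Finite A] [Nontrivial A] in
lemma th_norm (g : (AddMonoid.End A)ˣ) (hg : g ∈ (E.rhoU hQ).range)
    (k : (AddMonoid.End A)ˣ) (hk : k ∈ (E.th hQ).range) : g * k * g⁻¹ ∈ (E.th hQ).range := by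
  obtain ⟨h, rfl⟩ := hg
  obtain ⟨k, rfl⟩ := hk
  refine ⟨⟨h.1 * k.1 * h.1⁻¹, CC_normal hQ h.2 k.2⟩, ?_⟩
  unfold th
  simp only [MonoidHom.comp_apply]
  rw [← map_mul, ← map_inv, ← map_mul]
  rfl

omit [Finite A] [Nontrivial A] in
lemma four_inj (hp2 : p ≠ 2) {z : AddMonoid.End A} (hz : 4 * z = 0) : z = 0 := by
  ext a
  have h1 : 4 • (z a) = 0 := by
    have := DFunLike.congr_fun hz a
    have h2 : (4 * z) a = 4 • (z a) := by
      have : (4 : AddMonoid.End A) * z = 4 • z := by simp [nsmul_eq_mul]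
      rw [this]; rfl
    rw [h2] at this
    exact this
  have h2 := hp (z a)
  have h3 : addOrderOf (z a) ∣ 4 := addOrderOf_dvd_of_nsmul_eq_zero h1
  have h4 : addOrderOf (z a) ∣ p := addOrderOf_dvd_of_nsmul_eq_zero h2
  have h5 : Nat.Coprime 4 p := by
    have h6 : Nat.Coprime 2 p := (Nat.coprime_primes Nat.prime_two Fact.out).2 (Ne.symm hp2)
    exact Nat.Coprime.pow_left 2 h6
  have h7 := Nat.dvd_gcd h3 h4
  rw [h5] at h7
  have h8 : addOrderOf (z a) = 1 := Nat.dvd_one.1 h7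
  exact AddMonoid.addOrderOf_eq_one_iff.1 h8

include hQ

/-- **Main step.** -/
theorem mU_eq_one (hp2 : p ≠ 2) (hK : PP E.c.Quotient) (x y : Q) : E.mU hQ y x = 1 := by
  obtain ⟨hK1, k, hkodd, hk⟩ := hK
  set C := (E.th hQ).range with hC
  set G := (E.rhoU hQ).range with hG
  have hCG : C ≤ G := by
    rintro _ ⟨g, rfl⟩
    exact ⟨_, rfl⟩
  have hodd : ∀ c ∈ C, ∃ m : ℕ, Odd m ∧ ∀ d ∈ C, Commute (c ^ m) d := by
    rintro _ ⟨g, rfl⟩
    refine ⟨k, hkodd, ?_⟩
    rintro _ ⟨d, rfl⟩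
    rw [← map_pow]
    apply E.ker_commute hp hQ
    rw [map_pow]
    ext1
    exact hk _ (chi E.c g).2
  have quad : ∀ g ∈ C, ((g : AddMonoid.End A) - 1) * ((g : AddMonoid.End A) - 1) = 0 → g = 1 :=
    fun g hg hq => _root_.OddAuto34.quad_lemma hp2 hp G C (E.irr_rho hQ) hCG
      (E.th_norm hQ) (E.th_solvable hp hQ hK1) hodd g hg hq
  set u1 := E.mU hQ y x with hu1
  set c : AddMonoid.End A := (u1 : AddMonoid.End A) - 1 with hc
  have hu1C : u1 ∈ C := ⟨⟨MM y x, MM_mem_CC y x⟩, rfl⟩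
  have hc3 : c * c * c = 0 := four_inj hp hp2 (E.cube hp hQ x y)
  have hct : c * (E.tU hQ y : AddMonoid.End A) = c := E.K1b hp hQ x y
  set u2 := (E.tU hQ y)⁻¹ * E.mU hQ (iv Q y) x * ((E.tU hQ y)⁻¹)⁻¹ with hu2
  have hu2C : u2 ∈ C :=
    E.th_norm hQ _ (inv_mem ⟨_, rfl⟩) _ ⟨⟨MM (iv Q y) x, MM_mem_CC _ _⟩, rfl⟩
  have hu2v : (u2 : AddMonoid.End A) = 1 - c := by
    rw [hu2, inv_inv, Units.val_mul, Units.val_mul, E.N1 hp hQ y x, mul_sub, mul_one, sub_mul,
      ← hu1, ← hc]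
    have e1 : (((E.tU hQ y)⁻¹ : (AddMonoid.End A)ˣ) : AddMonoid.End A)
        * (E.tU hQ y : AddMonoid.End A) = 1 := by simp
    rw [e1, ← mul_assoc, e1, one_mul, hct]
  have hu1v : (u1 : AddMonoid.End A) = 1 + c := by rw [hc]; abel
  have h12 : u1 * u2 = 1 := by
    apply quad _ (mul_mem hu1C hu2C)
    rw [Units.val_mul, hu1v, hu2v]
    have : ((1 + c) * (1 - c) - 1) * ((1 + c) * (1 - c) - 1) = c * c * c * c := by
      noncomm_ring
    rw [this, hc3, zero_mul]
  have hc2 : c * c = 0 := by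
    have h3 := congrArg (fun z : (AddMonoid.End A)ˣ => (z : AddMonoid.End A)) h12
    simp only [Units.val_mul, Units.val_one] at h3
    rw [hu1v, hu2v] at h3
    have h4 : (1 + c) * (1 - c) = 1 - c * c := by noncomm_ring
    rw [h4] at h3
    exact sub_eq_self.1 h3
  exact quad u1 hu1C hc2

/-- `A` lies in the middle nucleus -/
theorem middle (hp2 : p ≠ 2) (hK : PP E.c.Quotient) (x y : Q) (a : A) :
    (x * E.i a) * y = x * (E.i a * y) := by
  rw [← MM_spec x y (E.i a), ← E.i_mU hQ, E.mU_eq_one hp hQ hp2 hK]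
  rfl

/-- inductive step for `PP` -/
theorem PP_step (hp2 : p ≠ 2) (hK : PP E.c.Quotient) : PP Q := by
  have hker : ∀ g : CC Q, chi E.c g = 1 → g.1 ∈ E.O := by
    intro g hg
    apply E.mem_O_of_fix (E.mem_N_of_quot (CC_le_Inn g.2).1 (fun x => chi_ker E.c hg x))
    have key : ∀ g ∈ CC Q, ∀ b, g (E.i b) = E.i b := by
      intro g hg
      induction hg using Subgroup.closure_induction with
      | mem x hx =>
        obtain ⟨⟨x, y⟩, rfl⟩ := hx
        intro b
        change MM x y (E.i b) = E.i b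
        rw [← E.i_mU hQ, E.mU_eq_one hp hQ hp2 hK]
        rfl
      | one => intro b; rfl
      | mul x y _ _ hx hy => intro b; rw [Equiv.Perm.mul_apply, hy, hx]
      | inv x _ hx => intro b; rw [Equiv.Perm.inv_eq_iff_eq, hx]
    exact key g.1 g.2
  obtain ⟨hK1, k, hkodd, hk⟩ := hK
  refine ⟨?_, k * p, hkodd.mul ?_, ?_⟩
  · have : Group.IsSolvable (chi E.c).ker := by
      apply Group.isSolvable_of_comm
      rintro ⟨g, hg⟩ ⟨h, hh⟩
      ext1
      ext1
      exact E.O_comm hp hQ (hker g hg) (hker h hh)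
    exact Group.isSolvable_of_ker_le_range (chi E.c).ker.subtype (chi E.c)
      (by rw [Subgroup.range_subtype])
  · exact (Fact.out : p.Prime).odd_of_ne_two hp2
  · intro g hg
    have h1 : chi E.c (⟨g, hg⟩ ^ k) = 1 := by
      rw [map_pow]
      ext1
      exact hk _ (chi E.c ⟨g, hg⟩).2
    have h2 := hker _ h1
    have h3 := E.O_exp hp hQ h2
    rw [pow_mul]
    exact h3

end Emb

end Pool.Agent.OddAuto34
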