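import Pool.Agent.OddAuto34.Affine

/-!
# Consequences of the normality of the translation group `O`
-/

namespace Pool.Agent.OddAuto34

universe u

variable {Q : Type u} [MulOneClass Q] [IsLoop Q]

namespace Emb

variable {A : Type u} [AddCommGroup A] (E : Emb Q A) [Finite Q]
lemma mem_N_of_quot {g : Equiv.Perm Q} (hg : g ∈ Mlt Q) (h : ∀ x, E.c (g x) x) : g ∈ E.N :=
  ⟨hg, fun x => E.c.symm (h x)⟩

lemma c_i_mul (a : A) (x : Q) : E.c (E.i a * x) x := E.c.symm (E.c_iff.2 ⟨a, rfl⟩)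

lemma c_lcancel {x y z : Q} (h : E.c (x * y) (x * z)) : E.c y z := by
  have := con_Mlt E.c (inv_mem (L_mem x)) _ _ h
  simpa using this

lemma c_rcancel {x y z : Q} (h : E.c (y * x) (z * x)) : E.c y z := by
  have := con_Mlt E.c (inv_mem (R_mem x)) _ _ h
  simpa using this

lemma mem_O_of_fix {g : Equiv.Perm Q} (hN : g ∈ E.N) (h : ∀ b, g (E.i b) = E.i b) : g ∈ E.O :=
  ⟨hN, 0, fun b => by rw [h, zero_add]⟩

variable {p : ℕ} [Fact p.Prime] [Finite A] [Nontrivial A]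
  (hp : ∀ a : A, p • a = 0) (hQ : IsAutomorphic Q)

include hp hQ

lemma O_normal' {g o : Equiv.Perm Q} (hg : g ∈ Mlt Q) (ho : o ∈ E.O) : g⁻¹ * o * g ∈ E.O := by
  have := E.O_normal hp hQ (inv_mem hg) ho
  simpa using this

lemma O_comm {o o' : Equiv.Perm Q} (ho : o ∈ E.O) (ho' : o' ∈ E.O) : o * o' = o' * o := by
  ext x
  obtain ⟨-, a, ha⟩ := E.O_normal' hp hQ (R_mem x) ho
  obtain ⟨-, b, hb⟩ := E.O_normal' hp hQ (R_mem x) ho'
  have h1 : (R x)⁻¹ ((o * o') x) = E.i (a + b) := by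
    have e : (R x)⁻¹ ((o * o') x)
        = ((R x)⁻¹ * o * (R x)) (((R x)⁻¹ * o' * (R x)) (E.i 0)) := by
      rw [E.i_zero]; simp
    rw [e, hb, ha, add_zero]
  have h2 : (R x)⁻¹ ((o' * o) x) = E.i (b + a) := by
    have e : (R x)⁻¹ ((o' * o) x)
        = ((R x)⁻¹ * o' * (R x)) (((R x)⁻¹ * o * (R x)) (E.i 0)) := by
      rw [E.i_zero]; simp
    rw [e, ha, hb, add_zero]
  have h3 : (R x)⁻¹ ((o * o') x) = (R x)⁻¹ ((o' * o) x) := by rw [h1, h2, add_comm]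
  exact (R x)⁻¹.injective h3

lemma O_exp {o : Equiv.Perm Q} (ho : o ∈ E.O) : o ^ p = 1 := by
  ext x
  obtain ⟨-, a, ha⟩ := E.O_normal' hp hQ (R_mem x) ho
  set k := (R x)⁻¹ * o * R x with hk
  have h1 : ∀ (n : ℕ) (b : A), (k ^ n) (E.i b) = E.i (n • a + b) := by
    intro n
    induction n with
    | zero => intro b; simp
    | succ n ih => intro b; rw [pow_succ, Equiv.Perm.mul_apply, ha, ih, succ_nsmul, add_assoc]
  have h2 : o ^ p = R x * k ^ p * (R x)⁻¹ := by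
    rw [← conj_pow, hk]; congr 1; group
  have h3 : (k ^ p) 1 = 1 := by
    rw [← E.i_zero, h1, hp, zero_add]
  rw [h2]
  simp only [Equiv.Perm.mul_apply]
  rw [R_inv_self, h3]
  simp

/-- an element of `O` with a fixed point fixes its class -/
lemma O_fix {o : Equiv.Perm Q} (ho : o ∈ E.O) {x : Q} (hx : o x = x) (a : A) :
    o (E.i a * x) = E.i a * x := by
  have h := E.O_comm hp hQ ho (E.L_mem_O a)
  have h2 : (o * L (E.i a)) x = (L (E.i a) * o) x := by rw [h]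
  simpa [hx] using h2

lemma O_fix' {o : Equiv.Perm Q} (ho : o ∈ E.O) {x : Q} (hx : o x = x) (a : A) :
    o (x * E.i a) = x * E.i a := by
  have h := E.O_comm hp hQ ho (E.R_mem_O a)
  have h2 : (o * R (E.i a)) x = (R (E.i a) * o) x := by rw [h]
  simpa [hx] using h2

/-- `a (b z) = (a b) z` -/
lemma assoc1 (a b : A) (z : Q) : E.i a * (E.i b * z) = E.i (a + b) * z := by
  have ho : (L (E.i a))⁻¹ * (R z * L (E.i a) * (R z)⁻¹) ∈ E.O :=
    mul_mem (inv_mem (E.L_mem_O a)) (E.O_normal hp hQ (R_mem z) (E.L_mem_O a))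
  have hz : ((L (E.i a))⁻¹ * (R z * L (E.i a) * (R z)⁻¹)) z = z := by
    simp
  have h := E.O_fix hp hQ ho hz b
  rw [Equiv.Perm.mul_apply, Equiv.Perm.inv_eq_iff_eq] at h
  simp only [Equiv.Perm.mul_apply, L_apply, R_apply, R_inv_mul] at h
  rw [E.i_add]
  exact h.symm

/-- `(z b) a = z (b a)` -/
lemma assoc2 (a b : A) (z : Q) : (z * E.i b) * E.i a = z * E.i (b + a) := by
  have ho : (R (E.i a))⁻¹ * (L z * R (E.i a) * (L z)⁻¹) ∈ E.O :=
    mul_mem (inv_mem (E.R_mem_O a)) (E.O_normal hp hQ (L_mem z) (E.R_mem_O a))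
  have hz : ((R (E.i a))⁻¹ * (L z * R (E.i a) * (L z)⁻¹)) z = z := by
    simp
  have h := E.O_fix' hp hQ ho hz b
  rw [Equiv.Perm.mul_apply, Equiv.Perm.inv_eq_iff_eq] at h
  simp only [Equiv.Perm.mul_apply, L_apply, R_apply, L_inv_mul] at h
  rw [E.i_add]
  exact h.symm

/-- `(a z) b = a (z b)` -/
lemma assoc3 (a b : A) (z : Q) : (E.i a * z) * E.i b = E.i a * (z * E.i b) := by
  have h := E.O_comm hp hQ (E.L_mem_O a) (E.R_mem_O b)
  have h2 : (L (E.i a) * R (E.i b)) z = (R (E.i b) * L (E.i a)) z := by rw [h]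
  simpa using h2.symm

lemma LL_mem_O (a : A) (x : Q) : LL (E.i a) x ∈ E.O := by
  apply E.mem_O_of_fix
  · apply E.mem_N_of_quot (LL_mem _ _).1
    intro z
    apply E.c_lcancel (x := x)
    have h1 := LL_spec (E.i a) x z
    have h2 : E.c ((E.i a * x) * LL (E.i a) x z) (x * LL (E.i a) x z) :=
      E.c.mul (E.c_i_mul a x) (E.c.refl _)
    rw [h1] at h2
    exact E.c.trans (E.c.symm h2) (E.c_i_mul a _)
  · intro b
    apply lcancel (a := E.i a * x)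
    rw [LL_spec, E.assoc3 hp hQ]

lemma RR_mem_O (a : A) (x : Q) : RR (E.i a) x ∈ E.O := by
  apply E.mem_O_of_fix
  · apply E.mem_N_of_quot (RR_mem _ _).1
    intro z
    apply E.c_rcancel (x := x)
    have h1 := RR_spec (E.i a) x z
    have h2 : E.c (RR (E.i a) x z * (E.i a * x)) (RR (E.i a) x z * x) :=
      E.c.mul (E.c.refl _) (E.c_i_mul a x)
    rw [h1] at h2
    have h3 : E.c ((z * E.i a) * x) (z * x) := by
      apply E.c.mul _ (E.c.refl _)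
      exact E.c.symm ((E.R_mem_N a).2 z)
    exact E.c.trans (E.c.symm h2) h3
  · intro b
    apply rcancel (a := E.i a * x)
    rw [RR_spec, E.assoc1 hp hQ, E.i_add]

/-- `L_{a x} ∈ O L_x` -/
lemma L_iax (a : A) (x : Q) : L (E.i a * x) * (L x)⁻¹ ∈ E.O := by
  have h1 : L (E.i a * x) * (L x)⁻¹
      = L (E.i a) * (L x * (LL (E.i a) x)⁻¹ * (L x)⁻¹) := by
    unfold LL; group
  rw [h1]
  exact mul_mem (E.L_mem_O a) (E.O_normal hp hQ (L_mem x) (inv_mem (E.LL_mem_O hp hQ a x)))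

/-- `R_{a x} ∈ O R_x` -/
lemma R_iax (a : A) (x : Q) : R (E.i a * x) * (R x)⁻¹ ∈ E.O := by
  have h1 : R (E.i a * x) * (R x)⁻¹
      = R x * (R (E.i a) * (RR (E.i a) x)⁻¹) * (R x)⁻¹ := by
    unfold RR; group
  rw [h1]
  exact E.O_normal hp hQ (R_mem x) (mul_mem (E.R_mem_O a) (inv_mem (E.RR_mem_O hp hQ a x)))

/-- elements of `N ∩ Inn` commute with `Mlt` modulo `O` -/
lemma comm_mod_O {n g : Equiv.Perm Q} (hn : n ∈ E.N) (hn1 : n ∈ Inn Q) (hg : g ∈ Mlt Q) :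
    n * g * n⁻¹ * g⁻¹ ∈ E.O := by
  induction hg using Subgroup.closure_induction with
  | mem g hg =>
    rcases hg with ⟨x, rfl⟩ | ⟨x, rfl⟩
    · rw [conj_L hQ hn1]
      obtain ⟨a, ha⟩ := E.c_iff.1 (hn.2 x)
      rw [ha]
      exact E.L_iax hp hQ a x
    · rw [conj_R hQ hn1]
      obtain ⟨a, ha⟩ := E.c_iff.1 (hn.2 x)
      rw [ha]
      exact E.R_iax hp hQ a x
  | one => simp
  | mul g k hg' hk' hg hk =>
    have : n * (g * k) * n⁻¹ * (g * k)⁻¹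
        = (n * g * n⁻¹ * g⁻¹) * (g * (n * k * n⁻¹ * k⁻¹) * g⁻¹) := by group
    rw [this]
    exact mul_mem hg (E.O_normal hp hQ hg' hk)
  | inv g hg' hg =>
    have : n * g⁻¹ * n⁻¹ * (g⁻¹)⁻¹ = g⁻¹ * (n * g * n⁻¹ * g⁻¹)⁻¹ * g := by group
    rw [this]
    exact E.O_normal' hp hQ hg' (inv_mem hg)

omit hp hQ [Fact p.Prime] [Finite A] [Nontrivial A] in
lemma O_inn_fix {o : Equiv.Perm Q} (ho : o ∈ E.O) (h1 : o 1 = 1) (b : A) :
    o (E.i b) = E.i b := by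
  obtain ⟨-, a, ha⟩ := ho
  have h2 := ha 0
  rw [E.i_zero, h1, add_zero, ← E.i_zero] at h2
  rw [ha, ← E.inj h2, zero_add]

/-- elements of `N ∩ Inn` restricted to `A` commute with `Inn` restricted to `A` -/
lemma N_commute {n h : Equiv.Perm Q} (hn : n ∈ E.N) (hn1 : n ∈ Inn Q) (hh : h ∈ Inn Q) :
    E.rho hQ ⟨n, hn1⟩ * E.rho hQ ⟨h, hh⟩ = E.rho hQ ⟨h, hh⟩ * E.rho hQ ⟨n, hn1⟩ := by
  have h1 := E.comm_mod_O hp hQ hn hn1 hh.1
  have h2 : (n * h * n⁻¹ * h⁻¹) 1 = 1 :=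
    (mul_mem (mul_mem (mul_mem hn1 hh) (inv_mem hn1)) (inv_mem hh) :
      n * h * n⁻¹ * h⁻¹ ∈ Inn Q).2
  rw [← map_mul, ← map_mul]
  ext b
  apply E.inj
  rw [i_rho, i_rho]
  change (n * h) (E.i b) = (h * n) (E.i b)
  have hb : h (n (E.i b)) = E.i (E.rho hQ ⟨h, hh⟩ (E.rho hQ ⟨n, hn1⟩ b)) := by
    rw [i_rho, i_rho]
  have h3 := E.O_inn_fix h1 h2 (E.rho hQ ⟨h, hh⟩ (E.rho hQ ⟨n, hn1⟩ b))
  rw [← hb] at h3
  simpa using h3

/-- formula (b) -/
lemma RR_formula (v : A) (x y : Q) :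
    RR (E.i v) y x = x * E.i (v - E.rho hQ ⟨MM x y, MM_mem x y⟩ v) := by
  set m := E.rho hQ ⟨MM x y, MM_mem x y⟩ with hm
  set w := v - m v with hw
  apply rcancel (a := E.i v * y)
  rw [RR_spec]
  have ho := E.R_iax hp hQ v y
  have hc := E.O_comm hp hQ ho (E.O_normal hp hQ (R_mem y) (E.R_mem_O w))
  -- conjugating R_w by R_{v y} is the same as by R_y
  have hc2 : R (E.i v * y) * R (E.i w) * (R (E.i v * y))⁻¹
      = R y * R (E.i w) * (R y)⁻¹ := by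
    calc R (E.i v * y) * R (E.i w) * (R (E.i v * y))⁻¹
        = (R (E.i v * y) * (R y)⁻¹) * (R y * R (E.i w) * (R y)⁻¹)
          * (R (E.i v * y) * (R y)⁻¹)⁻¹ := by group
      _ = (R y * R (E.i w) * (R y)⁻¹) * (R (E.i v * y) * (R y)⁻¹)
          * (R (E.i v * y) * (R y)⁻¹)⁻¹ := by rw [hc]
      _ = R y * R (E.i w) * (R y)⁻¹ := by group
  have h1 : (x * E.i w) * (E.i v * y)
      = (R (E.i v * y) * R (E.i w) * (R (E.i v * y))⁻¹) (x * (E.i v * y)) := by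
    simp only [Equiv.Perm.mul_apply, R_inv_mul, R_apply]
  have h2 : x * (E.i v * y) = (x * E.i (m v)) * y := by
    rw [← MM_spec, hm, i_rho]
  rw [h1, hc2, h2]
  simp only [Equiv.Perm.mul_apply, R_inv_mul, R_apply]
  rw [E.assoc2 hp hQ, hw]
  congr 3
  abel

/-- formula (a) -/
lemma LL_formula (v w : A) (x y : Q)
    (hw : E.rho hQ ⟨MM y x, MM_mem y x⟩ w = v) :
    LL y (E.i v) x = E.i (v - w) * x := by
  set m := E.rho hQ ⟨MM y x, MM_mem y x⟩ with hm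
  apply lcancel (a := y * E.i v)
  rw [LL_spec]
  obtain ⟨u, ⟨v', rfl⟩, hv'⟩ := E.nsub.commL y (u := E.i v) ⟨v, rfl⟩
  have ho := E.L_iax hp hQ v' y
  rw [← hv'] at ho
  have hc := E.O_comm hp hQ ho (E.O_normal hp hQ (L_mem y) (E.L_mem_O (v - w)))
  have hc2 : L (y * E.i v) * L (E.i (v - w)) * (L (y * E.i v))⁻¹
      = L y * L (E.i (v - w)) * (L y)⁻¹ := by
    calc L (y * E.i v) * L (E.i (v - w)) * (L (y * E.i v))⁻¹
        = (L (y * E.i v) * (L y)⁻¹) * (L y * L (E.i (v - w)) * (L y)⁻¹)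
          * (L (y * E.i v) * (L y)⁻¹)⁻¹ := by group
      _ = (L y * L (E.i (v - w)) * (L y)⁻¹) * (L (y * E.i v) * (L y)⁻¹)
          * (L (y * E.i v) * (L y)⁻¹)⁻¹ := by rw [hc]
      _ = L y * L (E.i (v - w)) * (L y)⁻¹ := by group
  have h1 : (y * E.i v) * (E.i (v - w) * x)
      = (L (y * E.i v) * L (E.i (v - w)) * (L (y * E.i v))⁻¹) ((y * E.i v) * x) := by
    simp only [Equiv.Perm.mul_apply, L_inv_mul, L_apply]
  have h2 : (y * E.i v) * x = y * (E.i w * x) := by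
    rw [← MM_spec, ← hw, hm, i_rho]
  rw [h1, hc2, h2]
  simp only [Equiv.Perm.mul_apply, L_inv_mul, L_apply]
  rw [E.assoc1 hp hQ]
  congr 3
  abel

end Emb

end Pool.Agent.OddAuto34
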